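import Pool.Agent.helper60.DK.ModP

/-!
# The first integral vanishes modulo `p^2`
-/

namespace Pool.Agent.helper60.DK

open Polynomial Finset

section
variable {p : ℕ} [hp : Fact p.Prime]

theorem red_Dz_pred (h5 : 5 ≤ p) : red p (Dz (p - 1)) = 1 := by
  ext j
  rw [coeff_red_Dz, coeff_one]
  cases j with
  | zero => simp [dc_zero]
  | succ j =>
    rw [dc_zero_mod (by omega) (by omega)]
    simp

theorem red_Dz_self (h5 : 5 ≤ p) : red p (Dz p) = 1 + 2 * X ^ p := by
  have e2 : (2 : (ZMod p)[X]) = C 2 := (map_ofNat C 2).symm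
  ext j
  rw [coeff_red_Dz, e2, coeff_add, coeff_one, coeff_C_mul, coeff_X_pow]
  rcases Nat.eq_zero_or_pos j with h | h
  · subst h
    have : (0 : ℕ) ≠ p := by omega
    simp [dc_zero, this]
  · rcases lt_trichotomy j p with h' | h' | h'
    · have hd : ((p.choose j : ℕ) : ZMod p) = 0 := by
        rw [ZMod.natCast_eq_zero_iff]
        exact hp.out.dvd_choose_self (by omega) h'
      unfold dc
      push_cast
      rw [hd]
      have h1 : j ≠ 0 := by omega
      have h2 : j ≠ p := by omega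
      simp [h1, h2]
    · subst h'
      have hc : (((j + j).choose j : ℕ) : ZMod j) = 2 := by
        have h := Choose.choose_modEq_choose_mod_mul_choose_div_nat (n := j + j) (k := j) (p := j)
        have e1 : (j + j) % j = 0 := by simp
        have e3 : (j + j) / j = 2 := by
          rw [← two_mul]; exact Nat.mul_div_cancel _ (by omega)
        have e4 : j / j = 1 := Nat.div_self (by omega)
        rw [e1, Nat.mod_self, e3, e4] at h
        have h' := (ZMod.natCast_eq_natCast_iff _ _ _).mpr h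
        rw [h']
        norm_num
      unfold dc
      push_cast
      rw [hc]
      have h1 : j ≠ 0 := by omega
      simp [h1]
    · rw [dc_of_lt h']
      have h1 : j ≠ 0 := by omega
      have h2 : j ≠ p := by omega
      simp [h1, h2]

theorem cast_p_poly : ((p : ℕ) : (ZMod p)[X]) = 0 := CharP.cast_eq_zero _ p

theorem exists_Q (h5 : 5 ≤ p) : ∃ Q : ℤ[X], Lop (Sz p) = C ((p : ℤ) ^ 2) * Q ∧
    2 * (1 + X) * X * Q = 3 * Gam X (p : ℤ[X]) (Dz p) (Dz (p - 1)) := by
  obtain ⟨m, hm⟩ : ∃ m, p = m + 1 := ⟨p - 1, by omega⟩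
  have hm1 : p - 1 = m := by omega
  have hpar := p_odd (p := p) h5
  have hev : Even m := by
    rw [Nat.even_iff]; omega
  have h := tele_sum m
  rw [hev.neg_one_pow, one_mul] at h
  have hmp : ((m : ℤ[X]) + 1) = (p : ℤ[X]) := by rw [hm]; push_cast; ring
  rw [hmp, ← hm] at h
  have hp2 : ((p : ℤ[X])) ^ 2 = C ((p : ℤ) ^ 2) := by simp
  -- work modulo p^2
  have hmap := congrArg (Polynomial.map (Int.castRingHom (ZMod (p ^ 2)))) h
  have hz : ((p : ℕ) : (ZMod (p ^ 2))[X]) ^ 2 = 0 := by
    have : ((p ^ 2 : ℕ) : (ZMod (p ^ 2))[X]) = 0 := CharP.cast_eq_zero _ (p ^ 2)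
    exact_mod_cast this
  simp only [Polynomial.map_mul, Polynomial.map_add, Polynomial.map_pow, Polynomial.map_X,
    Polynomial.map_one, Polynomial.map_ofNat, Polynomial.map_natCast, hz] at hmap
  have h0 : 2 * ((1 + X) * (X * (Lop (Sz p)).map (Int.castRingHom (ZMod (p ^ 2))))) = 0 := by
    linear_combination hmap
  have h2u : IsUnit (2 : (ZMod (p ^ 2))[X]) := by
    have : IsUnit ((2 : ℕ) : ZMod (p ^ 2)) := by
      rw [ZMod.isUnit_iff_coprime]
      apply Nat.Coprime.pow_right
      rw [Nat.coprime_primes Nat.prime_two hp.out]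
      omega
    have h' := this.map (C : ZMod (p ^ 2) →+* (ZMod (p ^ 2))[X])
    have e2 : (C ((2 : ℕ) : ZMod (p ^ 2)) : (ZMod (p ^ 2))[X]) = 2 := by
      rw [map_natCast]; norm_num
    rwa [e2] at h'
  have h1 : (1 + X) * (X * (Lop (Sz p)).map (Int.castRingHom (ZMod (p ^ 2)))) = 0 :=
    (h2u.mul_right_eq_zero).mp h0
  have hmon : (1 + X : (ZMod (p ^ 2))[X]).Monic := by
    have := monic_X_add_C (1 : ZMod (p ^ 2))
    rwa [C_1, add_comm] at this
  have h3 := hmon.mul_right_eq_zero_iff.mp h1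
  have h4 := (monic_X (R := ZMod (p ^ 2))).mul_right_eq_zero_iff.mp h3
  have hdvd : C ((p : ℤ) ^ 2) ∣ Lop (Sz p) := by
    rw [C_dvd_iff_dvd_coeff]
    intro i
    have := congrArg (fun f => coeff f i) h4
    simp only [coeff_map, coeff_zero, eq_intCast] at this
    have h5' := (ZMod.intCast_zmod_eq_zero_iff_dvd _ _).mp this
    exact_mod_cast h5'
  obtain ⟨Q, hQ⟩ := hdvd
  refine ⟨Q, hQ, ?_⟩
  have hC0 : (C ((p : ℤ) ^ 2) : ℤ[X]) ≠ 0 := by
    rw [Ne, C_eq_zero]
    have := hp.out.pos
    positivity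
  apply mul_left_cancel₀ hC0
  rw [hQ, hp2] at h
  rw [hm1]
  linear_combination h

/-- `c = (1+2X^p)(1+X^p)` -/
noncomputable def cp (p : ℕ) : (ZMod p)[X] := (1 + 2 * X ^ p) * (1 + X ^ p)

theorem derivative_X_pow_p : derivative (X ^ p : (ZMod p)[X]) = 0 := by
  rw [derivative_X_pow]; simp

theorem derivative_cp : derivative (cp p) = 0 := by
  unfold cp
  rw [derivative_mul, derivative_add, derivative_add, derivative_mul, derivative_X_pow_p]
  simp

theorem red_Q (h5 : 5 ≤ p) {Q : ℤ[X]}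
    (h : 2 * (1 + X) * X * Q = 3 * Gam X (p : ℤ[X]) (Dz p) (Dz (p - 1))) :
    (1 + X) * red p Q = 3 * (2 - X) * cp p := by
  have hmap := congrArg (Polynomial.map (Int.castRingHom (ZMod p))) h
  have e : (Gam X (p : ℤ[X]) (Dz p) (Dz (p - 1))).map (Int.castRingHom (ZMod p))
      = Gam X ((p : ℕ) : (ZMod p)[X]) (red p (Dz p)) (red p (Dz (p - 1))) := by
    unfold Gam
    simp [Polynomial.map_add, Polynomial.map_mul, Polynomial.map_sub, Polynomial.map_pow]
  rw [Polynomial.map_mul, Polynomial.map_mul, Polynomial.map_mul, Polynomial.map_mul, e,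
    red_Dz_self h5, red_Dz_pred h5, cast_p_poly] at hmap
  simp only [Polynomial.map_add, Polynomial.map_X, Polynomial.map_one, Polynomial.map_ofNat] at hmap
  have h2 : (2 : (ZMod p)[X]) ≠ 0 := by
    have : (C (2 : ZMod p) : (ZMod p)[X]) ≠ 0 := by
      rw [Ne, C_eq_zero]; exact two_ne h5
    rwa [map_ofNat] at this
  apply mul_left_cancel₀ h2
  apply mul_left_cancel₀ (X_ne_zero (R := ZMod p))
  unfold cp
  unfold Gam at hmap
  change 2 * (1 + X) * X * red p Q = _ at hmap
  linear_combination hmap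

theorem SQ_eq (h5 : 5 ≤ p) {Q : ℤ[X]}
    (h : 2 * (1 + X) * X * Q = 3 * Gam X (p : ℤ[X]) (Dz p) (Dz (p - 1))) :
    red p (Sz p * Q) = derivative (3 * cp p * Zp p) := by
  have h1 := red_Q h5 h
  have h2 := derivative_Zp (p := p) h5
  have hX1 : (1 + X : (ZMod p)[X]) ≠ 0 := by
    have := X_add_C_ne_zero (1 : ZMod p)
    rwa [C_1, add_comm] at this
  apply mul_left_cancel₀ hX1
  have e : red p (Sz p * Q) = red p (Sz p) * red p Q := Polynomial.map_mul _
  rw [e, S_eq_W h5, derivative_mul, derivative_mul, derivative_cp]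
  simp only [derivative_ofNat]
  linear_combination Wp p * h1 - 3 * cp p * h2

theorem natDegree_Jop_le (y : ℤ[X]) (d : ℕ) (hd : y.natDegree ≤ d) :
    (Jop y).natDegree ≤ 2 * d + 5 := by
  have h1 : (derivative y).natDegree ≤ d := (natDegree_derivative_le y).trans (by omega)
  have h2 : (derivative (derivative y)).natDegree ≤ d :=
    (natDegree_derivative_le _).trans (by omega)
  have a1 : (4 * X ^ 2 * (1 + X) ^ 2 * (1 + 4 * X) : ℤ[X]).natDegree ≤ 5 := by compute_degree
  have a2 : (8 * X * (1 + X) * (1 + 8 * X + 10 * X ^ 2) : ℤ[X]).natDegree ≤ 5 := by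
    have : (8 * X * (1 + X) * (1 + 8 * X + 10 * X ^ 2) : ℤ[X]).natDegree ≤ 4 := by compute_degree
    omega
  have a3 : (12 * X + 51 * X ^ 2 + 36 * X ^ 3 : ℤ[X]).natDegree ≤ 5 := by
    have : (12 * X + 51 * X ^ 2 + 36 * X ^ 3 : ℤ[X]).natDegree ≤ 3 := by compute_degree
    omega
  have b1 : (2 * y * derivative (derivative y) - (derivative y) ^ 2).natDegree ≤ 2 * d := by
    refine (natDegree_sub_le _ _).trans (max_le ?_ ?_)
    · rw [mul_assoc]
      have : (2 : ℤ[X]) = C 2 := (map_ofNat C 2).symm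
      rw [this]
      refine (natDegree_C_mul_le _ _).trans (natDegree_mul_le.trans (by omega))
    · refine natDegree_pow_le.trans ?_
      omega
  have b2 : (y * derivative y).natDegree ≤ 2 * d := natDegree_mul_le.trans (by omega)
  have b3 : (y ^ 2).natDegree ≤ 2 * d := natDegree_pow_le.trans (by omega)
  unfold Jop
  refine (natDegree_add_le _ _).trans (max_le ((natDegree_add_le _ _).trans (max_le ?_ ?_)) ?_)
  · exact natDegree_mul_le.trans (by omega)
  · rw [mul_assoc _ y]
    exact natDegree_mul_le.trans (by omega)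
  · exact natDegree_mul_le.trans (by omega)

theorem natDegree_Dz (k : ℕ) : (Dz k).natDegree ≤ k := by
  rw [natDegree_le_iff_coeff_eq_zero]
  intro j hj
  rw [coeff_Dz', dc_of_lt hj]

theorem natDegree_Sz (N : ℕ) : (Sz N).natDegree ≤ 3 * (N - 1) := by
  unfold Sz
  apply natDegree_sum_le_of_forall_le
  intro k hk
  have hk' := mem_range.mp hk
  have h1 := natDegree_Dz k
  have e : ((-1 : ℤ[X]) ^ k) = C ((-1) ^ k) := by simp
  rw [e]
  refine (natDegree_C_mul_le _ _).trans (natDegree_pow_le.trans ?_)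
  omega

theorem Jop_coeff_zero (y : ℤ[X]) : (Jop y).coeff 0 = 0 := by
  unfold Jop
  rw [coeff_zero_eq_eval_zero]
  simp

/-- the first integral vanishes modulo `p^2` -/
theorem Jop_Sz_dvd (h7 : 7 ≤ p) (n : ℕ) : (p : ℤ) ^ 2 ∣ (Jop (Sz p)).coeff n := by
  have h5 : 5 ≤ p := by omega
  obtain ⟨Q, hQ, hQ2⟩ := exists_Q (p := p) h5
  have hSQ := SQ_eq h5 hQ2
  obtain ⟨V, hV⟩ := Polynomial.map_surjective (Int.castRingHom (ZMod p))
    (ZMod.ringHom_surjective _) (3 * cp p * Zp p)
  have hR : C (p : ℤ) ∣ Sz p * Q - derivative V := by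
    rw [C_dvd_iff_dvd_coeff]
    intro i
    have : red p (Sz p * Q - derivative V) = 0 := by
      rw [red, Polynomial.map_sub, ← derivative_map, hV]
      change red p (Sz p * Q) - _ = 0
      rw [hSQ, sub_self]
    have := congrArg (fun f => coeff f i) this
    simp only [coeff_map, coeff_zero, eq_intCast] at this
    exact (ZMod.intCast_zmod_eq_zero_iff_dvd _ _).mp this
  obtain ⟨R, hR⟩ := hR
  have hJ : derivative (Jop (Sz p)) = C (2 * (p : ℤ) ^ 2) * (derivative V + C (p : ℤ) * R) := by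
    rw [derivative_Jop, hQ, ← hR]
    have : (C (2 * (p : ℤ) ^ 2) : ℤ[X]) = 2 * C ((p : ℤ) ^ 2) := by
      rw [C_mul, map_ofNat]
    rw [this]; ring
  cases n with
  | zero => rw [Jop_coeff_zero]; exact dvd_zero _
  | succ n =>
    rcases lt_or_ge (n + 1) (p ^ 2) with hn | hn
    · have hc := congrArg (fun f => coeff f n) hJ
      simp only [coeff_derivative, coeff_C_mul, coeff_add] at hc
      set J := (Jop (Sz p)).coeff (n + 1)
      set A := J - 2 * (p : ℤ) ^ 2 * V.coeff (n + 1) with hA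
      have hA3 : ((n : ℤ) + 1) * A = (p : ℤ) ^ 3 * (2 * R.coeff n) := by
        rw [hA]; linear_combination hc
      have hpp : Prime (p : ℤ) := Nat.prime_iff_prime_int.mp hp.out
      have hA2 : (p : ℤ) ^ 2 ∣ A := by
        by_cases hd : (p : ℤ) ∣ ((n : ℤ) + 1)
        · obtain ⟨u, hu⟩ := hd
          have hu' : ¬ (p : ℤ) ∣ u := by
            rintro ⟨w, hw⟩
            rw [hw] at hu
            have h1 : ((p ^ 2 : ℕ) : ℤ) ∣ ((n + 1 : ℕ) : ℤ) := by
              refine ⟨w, ?_⟩
              push_cast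
              rw [hu]; ring
            have h2 := Int.natCast_dvd_natCast.mp h1
            have := Nat.le_of_dvd (by omega) h2
            omega
          have hp0 : (p : ℤ) ≠ 0 := hpp.ne_zero
          have h3 : u * A = (p : ℤ) ^ 2 * (2 * R.coeff n) := by
            apply mul_left_cancel₀ hp0
            rw [hu] at hA3
            linear_combination hA3
          exact hpp.pow_dvd_of_dvd_mul_left 2 hu' ⟨_, h3⟩
        · have : (p : ℤ) ^ 2 ∣ ((n : ℤ) + 1) * A := by
            rw [hA3]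
            exact ⟨p * (2 * R.coeff n), by ring⟩
          exact hpp.pow_dvd_of_dvd_mul_left 2 hd this
      have : J = A + (p : ℤ) ^ 2 * (2 * V.coeff (n + 1)) := by rw [hA]; ring
      rw [this]
      exact dvd_add hA2 (dvd_mul_right _ _)
    · have hdeg := natDegree_Jop_le (Sz p) (3 * (p - 1)) (natDegree_Sz p)
      rw [coeff_eq_zero_of_natDegree_lt]
      · exact dvd_zero _
      · refine lt_of_le_of_lt hdeg (lt_of_lt_of_le ?_ hn)
        have : 7 * p ≤ p ^ 2 := by nlinarith
        omega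

end

end Pool.Agent.helper60.DK
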