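import Pool.Agent.helper60.DK.HALF

/-!
# Rows dk:P8, dk:P16
-/

namespace Pool.Agent.helper60.DK

open Polynomial Finset

/-- a common form: a root `s` and vanishing at `y_β` gives vanishing of `S` at `x` -/
theorem via_alpha (hWF : WF_stmt) (hME : ME_stmt) (p : ℕ) [hp : Fact p.Prime] (h5 : 5 ≤ p)
    (s : AlgebraicClosure (ZMod p)) (hs : s ≠ 0) (x : ZMod p) (ya : AlgebraicClosure (ZMod p))
    (hya : ya = -((s - 1) * (s + 2) ^ 2) / (2 * s ^ 3))
    (hD : aeval (-((s - 1) ^ 2 * (s + 2)) / 4) (Dz (nn p)) = 0)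
    (hx : 1 + algebraMap (ZMod p) (AlgebraicClosure (ZMod p)) x ≠ 0)
    (hxy : 16 * (1 + algebraMap (ZMod p) (AlgebraicClosure (ZMod p)) x) ^ 3 * (ya * (1 + ya))
      = -27 * (algebraMap (ZMod p) (AlgebraicClosure (ZMod p)) x) ^ 2) :
    aeval x (Sz p) = 0 := by
  have h1 := hME p (AlgebraicClosure (ZMod p)) h5 s hs
  have h1' := h1.trans hD
  rw [← hya] at h1'
  have h2 : aeval ya (Dz (nn p)) = 0 := (mul_eq_zero.mp h1').resolve_left (pow_ne_zero _ hs)
  have key := hWF p (AlgebraicClosure (ZMod p)) h5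
    (algebraMap (ZMod p) (AlgebraicClosure (ZMod p)) x) ya hx hxy
  have key2 := key.trans (congrArg (fun z => (1 +
    algebraMap (ZMod p) (AlgebraicClosure (ZMod p)) x) ^ (3 * hh p) * z ^ 2) h2)
  have hz : aeval (algebraMap (ZMod p) (AlgebraicClosure (ZMod p)) x) (Sz p) = 0 := by
    refine key2.trans ?_
    ring
  have hinj := FaithfulSMul.algebraMap_injective (ZMod p) (AlgebraicClosure (ZMod p))
  apply hinj
  rw [map_zero, ← aeval_algebraMap_apply]
  exact hz

theorem P8 (hWF : WF_stmt) (hME : ME_stmt) (hH : HALF_stmt) : P8_stmt := by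
  intro p hp h5 hm
  obtain ⟨s, hs2⟩ : ∃ s : AlgebraicClosure (ZMod p), s ^ 2 = 3 :=
    IsAlgClosed.exists_pow_nat_eq 3 (by norm_num)
  have h2 : (2 : AlgebraicClosure (ZMod p)) ≠ 0 := by
    have := natCast_ne_of_lt (p := p) (F := AlgebraicClosure (ZMod p)) (m := 2) (by omega) (by omega)
    simpa using this
  have h3 : (3 : AlgebraicClosure (ZMod p)) ≠ 0 := by
    have := natCast_ne_of_lt (p := p) (F := AlgebraicClosure (ZMod p)) (m := 3) (by omega) (by omega)
    simpa using this
  have hs : s ≠ 0 := by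
    rintro rfl
    apply h3
    rw [← hs2]; ring
  have hmap : algebraMap (ZMod p) (AlgebraicClosure (ZMod p)) (1 / 8) = 1 / 8 := by
    rw [map_div₀, map_one, map_ofNat]
  have h8 : (8 : AlgebraicClosure (ZMod p)) ≠ 0 := by
    have e : (8 : AlgebraicClosure (ZMod p)) = 2 ^ 3 := by norm_num
    rw [e]; exact pow_ne_zero _ h2
  have h4 : (4 : AlgebraicClosure (ZMod p)) ≠ 0 := by
    have e : (4 : AlgebraicClosure (ZMod p)) = 2 ^ 2 := by norm_num
    rw [e]; exact pow_ne_zero _ h2
  refine via_alpha hWF hME p h5 s hs (1 / 8) _ rfl ?_ ?_ ?_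
  · have e : -((s - 1) ^ 2 * (s + 2)) / 4 = -1 / 2 := by
      field_simp
      linear_combination (-2 : AlgebraicClosure (ZMod p)) * s * hs2
    rw [e]
    have hodd : nn p % 2 = 1 := by
      have := p_odd (p := p) h5
      unfold nn; omega
    have hlt : nn p < p := by unfold nn; omega
    exact (hH p (AlgebraicClosure (ZMod p)) h5 (nn p) hodd hlt).1
  · rw [hmap]
    intro h
    have h9 : (3 : AlgebraicClosure (ZMod p)) ^ 2 = 0 := by
      have e : (3 : AlgebraicClosure (ZMod p)) ^ 2 = 8 * (1 + 1 / 8) := by field_simp; norm_num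
      rw [e, h, mul_zero]
    exact pow_ne_zero 2 h3 h9
  · rw [hmap]
    have hs6 : s ^ 6 = 27 := by
      have : s ^ 6 = (s ^ 2) ^ 3 := by ring
      rw [this, hs2]; norm_num
    have hprod : (-((s - 1) * (s + 2) ^ 2) / (2 * s ^ 3))
        * (1 + -((s - 1) * (s + 2) ^ 2) / (2 * s ^ 3)) = -1 / 54 := by
      have h54 : (54 : AlgebraicClosure (ZMod p)) ≠ 0 := by
        have e : (54 : AlgebraicClosure (ZMod p)) = 2 * 3 ^ 3 := by norm_num
        rw [e]; exact mul_ne_zero h2 (pow_ne_zero _ h3)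
      have hs3 : s ^ 3 = 3 * s := by
        have : s ^ 3 = s ^ 2 * s := by ring
        rw [this, hs2]
      have hA : (s - 1) * (s + 2) ^ 2 = 3 * s + 5 := by
        linear_combination s * hs2 + 3 * hs2
      rw [hA, hs3]
      field_simp
      linear_combination (-450 : AlgebraicClosure (ZMod p)) * hs2
    rw [hprod]
    have h54 : (54 : AlgebraicClosure (ZMod p)) ≠ 0 := by
      have e : (54 : AlgebraicClosure (ZMod p)) = 2 * 3 ^ 3 := by norm_num
      rw [e]; exact mul_ne_zero h2 (pow_ne_zero _ h3)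
    field_simp
    norm_num

theorem P16 (hWF : WF_stmt) (hME : ME_stmt) (hY : P4Y_stmt) : P16_stmt := by
  intro p hp h7 hl
  have h5 : 5 ≤ p := by omega
  obtain ⟨s, hs2⟩ : ∃ s : AlgebraicClosure (ZMod p), s ^ 2 = 5 :=
    IsAlgClosed.exists_pow_nat_eq 5 (by norm_num)
  obtain ⟨b, hb⟩ : ∃ b : AlgebraicClosure (ZMod p), b ^ 2 = -3 :=
    IsAlgClosed.exists_pow_nat_eq (-3) (by norm_num)
  have h2 : (2 : AlgebraicClosure (ZMod p)) ≠ 0 := by
    have := natCast_ne_of_lt (p := p) (F := AlgebraicClosure (ZMod p)) (m := 2) (by omega) (by omega)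
    simpa using this
  have h3 : (3 : AlgebraicClosure (ZMod p)) ≠ 0 := by
    have := natCast_ne_of_lt (p := p) (F := AlgebraicClosure (ZMod p)) (m := 3) (by omega) (by omega)
    simpa using this
  have h5' : (5 : AlgebraicClosure (ZMod p)) ≠ 0 := by
    have := natCast_ne_of_lt (p := p) (F := AlgebraicClosure (ZMod p)) (m := 5) (by omega) (by omega)
    simpa using this
  have hs : s ≠ 0 := by
    rintro rfl
    apply h5'
    rw [← hs2]; ring
  have hmap : algebraMap (ZMod p) (AlgebraicClosure (ZMod p)) (-1 / 16) = -1 / 16 := by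
    rw [map_div₀, map_neg, map_one, map_ofNat]
  have h16 : (16 : AlgebraicClosure (ZMod p)) ≠ 0 := by
    have e : (16 : AlgebraicClosure (ZMod p)) = 2 ^ 4 := by norm_num
    rw [e]; exact pow_ne_zero _ h2
  have h4 : (4 : AlgebraicClosure (ZMod p)) ≠ 0 := by
    have e : (4 : AlgebraicClosure (ZMod p)) = 2 ^ 2 := by norm_num
    rw [e]; exact pow_ne_zero _ h2
  refine via_alpha hWF hME p h5 s hs (-1 / 16) _ rfl ?_ ?_ ?_
  · have e : -((s - 1) ^ 2 * (s + 2)) / 4 = (-s - 1) / 2 := by
      field_simp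
      linear_combination (-2 : AlgebraicClosure (ZMod p)) * s * hs2
    rw [e]
    exact hY p (AlgebraicClosure (ZMod p)) h7 hl (-s) b (by rw [neg_sq]; exact hs2) hb
  · rw [hmap]
    intro h
    have h15 : (3 : AlgebraicClosure (ZMod p)) * 5 = 0 := by
      have e : (3 : AlgebraicClosure (ZMod p)) * 5 = 16 * (1 + -1 / 16) := by
        field_simp; norm_num
      rw [e, h, mul_zero]
    exact mul_ne_zero h3 h5' h15
  · rw [hmap]
    have hprod : (-((s - 1) * (s + 2) ^ 2) / (2 * s ^ 3))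
        * (1 + -((s - 1) * (s + 2) ^ 2) / (2 * s ^ 3)) = -1 / 125 := by
      have hs3 : s ^ 3 = 5 * s := by
        have : s ^ 3 = s ^ 2 * s := by ring
        rw [this, hs2]
      have hA : (s - 1) * (s + 2) ^ 2 = 5 * s + 11 := by
        linear_combination s * hs2 + 3 * hs2
      have h125 : (125 : AlgebraicClosure (ZMod p)) ≠ 0 := by
        have e : (125 : AlgebraicClosure (ZMod p)) = 5 ^ 3 := by norm_num
        rw [e]; exact pow_ne_zero _ h5'
      rw [hA, hs3]
      field_simp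
      linear_combination (-3025 : AlgebraicClosure (ZMod p)) * hs2
    rw [hprod]
    have h125 : (125 : AlgebraicClosure (ZMod p)) ≠ 0 := by
      have e : (125 : AlgebraicClosure (ZMod p)) = 5 ^ 3 := by norm_num
      rw [e]; exact pow_ne_zero _ h5'
    field_simp
    norm_num

end Pool.Agent.helper60.DK
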