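import Pool.Agent.helper60.DK.CRI
import Pool.Agent.helper60.DK.P816
import Pool.Agent.helper15.DK.TR1
import Pool.Agent.helper94.DK.TR2
import Pool.Agent.helper94.DK.P4
import Pool.Agent.helper19.DK.PAR
import Pool.Agent.helper3.DK.ME
import Pool.Agent.helper57.DK.ME1
import Pool.Agent.helper87.DK.ME2
import Pool.Agent.helper37.DK.P5
import Pool.Agent.helper75.DK.P12
import Pool.Agent.helper89.DK.P2
import Pool.Agent.helper33.DK.W14
import Pool.Agent.helper28.DK.P4Y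

/-!
# All rows together
-/

namespace Pool.Agent.helper60.DK

theorem me : ME_stmt := ME ME1 ME2

theorem p4y : P4Y_stmt := P4Y me PAR

theorem inertA (p : ℕ) (hp : p.Prime) (h3 : 3 < p) (hm : p % 3 = 2) :
    CongrSq p (∑ k ∈ Finset.range p, D k (-3) ^ 3) 0 ∧
    CongrSq p (∑ k ∈ Finset.range p, (-1) ^ k * D k (-1 / 4) ^ 3) 0 ∧
    CongrSq p (∑ k ∈ Finset.range p, (-1) ^ k * D k (1 / 8) ^ 3) 0 :=
  partA TR1 TR2 PAR (P2 WF HALF) (P8 WF me HALF) (W14 HALF) P5 p hp h3 hm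

theorem inertB (p : ℕ) [hp : Fact p.Prime] (h3 : 3 < p) (hm : legendreSym p (-6) = -1) :
    CongrSq p (∑ k ∈ Finset.range p, (-1) ^ k * D k (1 / 2) ^ 3) 0 :=
  partB TR1 TR2 (P12 WF me PAR) p h3 hm

theorem inertC (p : ℕ) [hp : Fact p.Prime] (h3 : 3 < p) (hm : jacobiSym (p : ℤ) 15 = -1) :
    CongrSq p (∑ k ∈ Finset.range p, D k 3 ^ 3) 0 ∧
    CongrSq p (∑ k ∈ Finset.range p, (-1) ^ k * D k (-1 / 16) ^ 3) 0 :=
  partC TR1 TR2 PAR (P4 WF p4y) (P16 WF me p4y) p h3 hm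

theorem squareCriterion (p : ℕ) (hp : p.Prime) (h7 : 7 ≤ p) (x : ℚ) (hd : ¬ p ∣ x.den)
    (hreg : ¬ (p : ℤ) ∣ (x * (1 + x) * (1 + 4 * x)).num) :
    CongrSq p (∑ k ∈ Finset.range p, (-1) ^ k * D k x ^ 3) 0 ↔
      ∃ r : ℚ, ¬ p ∣ r.den ∧ ∑ k ∈ Finset.range (p / 3 + 1), ((p / 3).choose k : ℚ)
        * ((p / 3 + k).choose k : ℚ) * ((2 * k).choose k : ℚ)
        * (-27 * x ^ 2 / (16 * (1 + x) ^ 3)) ^ k = (p : ℚ) * r := by
  haveI : Fact p.Prime := ⟨hp⟩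
  exact criterion TR1 TR2 h7 x hd hreg

end Pool.Agent.helper60.DK
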