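import Pool.Agent.helper60.DK.Spec

/-!
# Row dk:HALF
-/

namespace Pool.Agent.helper60.DK

open Polynomial Finset

theorem natCast_ne_of_lt {p : ℕ} {F : Type} [Field F] [CharP F p] {m : ℕ} (h1 : 1 ≤ m)
    (h2 : m < p) : (m : F) ≠ 0 := by
  intro h
  have := (CharP.cast_eq_zero_iff F p m).mp h
  have := Nat.le_of_dvd h1 this
  omega

theorem half_data {p : ℕ} {F : Type} [Field F] [CharP F p] (h5 : 5 ≤ p) :
    ∀ m : ℕ, 2 * m + 1 < p → aeval (-1 / 2 : F) (Dz (2 * m)) ≠ 0 ∧
      aeval (-1 / 2 : F) (Dz (2 * m + 1)) = 0 := by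
  have h2 : (2 : F) ≠ 0 := by
    have := natCast_ne_of_lt (p := p) (F := F) (m := 2) (by omega) (by omega)
    simpa using this
  have e0 : (1 : F) + 2 * (-1 / 2) = 0 := by field_simp; ring
  have rec3 : ∀ k : ℕ, ((k : F) + 1 + 1) * aeval (-1 / 2 : F) (Dz (k + 2))
      = -((k : F) + 1) * aeval (-1 / 2 : F) (Dz k) := by
    intro k
    have a1 := congrArg (aeval (-1 / 2 : F)) (rel_one k)
    have a2 := congrArg (aeval (-1 / 2 : F)) (rel_two (k + 1))
    simp only [map_mul, map_add, map_sub, map_one, aeval_X, map_ofNat, map_natCast] at a1 a2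
    rw [e0] at a1 a2
    push_cast at a2
    linear_combination a1 - a2
  intro m
  induction m with
  | zero =>
    intro _
    refine ⟨?_, ?_⟩
    · have : Dz 0 = 1 := by
        unfold Dz; simp
      rw [this]; simp
    · have : Dz 1 = 1 + 2 * X := by
        unfold Dz
        rw [sum_range_succ, sum_range_one]
        simp
      simp only [mul_zero, zero_add]
      rw [this]
      simp only [map_mul, map_add, map_one, aeval_X, map_ofNat]
      exact e0
  | succ m ih =>
    intro hm
    obtain ⟨i1, i2⟩ := ih (by omega)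
    have r1 := rec3 (2 * m)
    have r2 := rec3 (2 * m + 1)
    refine ⟨?_, ?_⟩
    · intro h
      have e : 2 * (m + 1) = 2 * m + 2 := by ring
      rw [e] at h
      rw [h, mul_zero] at r1
      have hk : ((2 * m : ℕ) : F) + 1 ≠ 0 := by
        have := natCast_ne_of_lt (p := p) (F := F) (m := 2 * m + 1) (by omega) (by omega)
        push_cast at this ⊢
        exact this
      have := mul_ne_zero (neg_ne_zero.mpr hk) i1
      exact this r1.symm
    · have e : 2 * (m + 1) + 1 = 2 * m + 1 + 2 := by ring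
      rw [e]
      rw [i2, mul_zero] at r2
      have hk : ((2 * m + 1 : ℕ) : F) + 1 + 1 ≠ 0 := by
        have := natCast_ne_of_lt (p := p) (F := F) (m := 2 * m + 3) (by omega) (by omega)
        intro hh
        apply this
        rw [← hh]
        push_cast; ring
      exact (mul_eq_zero.mp r2).resolve_left hk

theorem HALF : HALF_stmt := by
  intro p hp F _ _ h5 n hn hlt
  obtain ⟨m, rfl⟩ : ∃ m, n = 2 * m + 1 := ⟨n / 2, by omega⟩
  have hpo : p % 2 = 1 := p_odd h5
  obtain ⟨h1, h2⟩ := half_data (p := p) (F := F) h5 m (by omega)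
  refine ⟨h2, ?_⟩
  have a1 := congrArg (aeval (-1 / 2 : F)) (rel_one (2 * m))
  simp only [map_mul, map_add, map_sub, map_one, aeval_X, map_ofNat, map_natCast] at a1
  have h2' : (2 : F) ≠ 0 := by
    have := natCast_ne_of_lt (p := p) (F := F) (m := 2) (by omega) (by omega)
    simpa using this
  have e0 : (1 : F) + 2 * (-1 / 2) = 0 := by field_simp; ring
  rw [e0, zero_mul] at a1
  intro h
  rw [h, mul_zero] at a1
  have hk : ((2 * m : ℕ) : F) + 1 ≠ 0 := by
    have := natCast_ne_of_lt (p := p) (F := F) (m := 2 * m + 1) (by omega) (by omega)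
    push_cast at this ⊢
    exact this
  have h3 : (0 : F) - aeval (-1 / 2 : F) (Dz (2 * m)) = 0 :=
    (mul_eq_zero.mp a1.symm).resolve_left hk
  exact h1 (by linear_combination -h3)

end Pool.Agent.helper60.DK
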