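import Pool.Agent.helper60.DK.Spec

/-!
# Row dk:WF
-/

namespace Pool.Agent.helper60.DK

open Polynomial Finset

theorem WF : WF_stmt := by
  intro p hp F _ _ h5 x y hx hxy
  letI : Algebra (ZMod p) F := ZMod.algebra F p
  have e1 : aeval x (Sz p) = aeval x (red p (Sz p)) := by
    rw [red, aeval_def, aeval_def, eval₂_map]
    congr 1
    exact RingHom.ext_int _ _
  rw [e1, S_eq_W h5]
  have e2 : (aeval y (Dz (nn p))) ^ 2 = aeval (y * (1 + y)) (Cn (nn p)) := by
    rw [← map_pow, ← clausen, aeval_comp]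
    simp
  rw [e2]
  unfold Wp Cn
  rw [map_sum, map_sum, mul_sum]
  apply sum_congr rfl
  intro k hk
  have hkh : k ≤ hh p := by
    have := nn_lt_hh (p := p) h5
    have := mem_range.mp hk
    omega
  unfold ff bb
  have h16 : (16 : F) ≠ 0 := by
    have h2 := two_ne (p := p) h5
    have : (algebraMap (ZMod p) F) 2 ≠ 0 := by
      intro h
      exact h2 ((map_eq_zero _).mp h)
    have h2' : (2 : F) ≠ 0 := by rwa [map_ofNat] at this
    have : (16 : F) = 2 ^ 4 := by norm_num
    rw [this]; exact pow_ne_zero _ h2'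
  have hpow : (1 + x) ^ (3 * hh p) = (1 + x) ^ (3 * (hh p - k)) * ((1 + x) ^ 3) ^ k := by
    rw [← pow_mul, ← pow_add]; congr 1; omega
  have hl : ((1 + x) ^ 3) ^ k * (y * (1 + y)) ^ k = (-27 / 16) ^ k * x ^ (2 * k) := by
    rw [← mul_pow, pow_mul, ← mul_pow]
    congr 1
    field_simp
    linear_combination hxy
  have m1 : (algebraMap (ZMod p) F) (((cc (nn p) k : ℤ) : ZMod p)) = ((cc (nn p) k : ℤ) : F) := by
    simp
  simp only [map_mul, map_pow, map_add, map_one, aeval_X, aeval_C, map_div₀, map_neg, map_ofNat,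
    m1]
  have m2 : (algebraMap ℤ F) (cc (nn p) k) = ((cc (nn p) k : ℤ) : F) := by simp
  rw [m2, hpow]
  linear_combination -(((cc (nn p) k : ℤ) : F) * (1 + x) ^ (3 * (hh p - k))) * hl

end Pool.Agent.helper60.DK
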