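import Mathlib

/-!
# The polynomials `D_n`

`Dz n` is the integer polynomial `D_n(X) = ∑ C(n,k) C(n+k,k) X^k`.
-/

namespace Pool.Agent.helper60.DK

open Polynomial Finset

/-- `D_n(X)` as an integer polynomial. -/
noncomputable def Dz (n : ℕ) : ℤ[X] :=
  ∑ k ∈ range (n + 1), C (((n.choose k * (n + k).choose k : ℕ) : ℤ)) * X ^ k

theorem coeff_Dz (n k : ℕ) : (Dz n).coeff k = ((n.choose k * (n + k).choose k : ℕ) : ℤ) := by
  unfold Dz
  simp only [finset_sum_coeff, coeff_C_mul, coeff_X_pow]
  by_cases hk : k ∈ range (n + 1)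
  · rw [Finset.sum_eq_single k]
    · simp
    · intro b _ hb
      simp [Ne.symm hb]
    · intro h
      exact absurd hk h
  · have hlt : n < k := by
      simpa using hk
    rw [Finset.sum_eq_zero]
    · rw [Nat.choose_eq_zero_of_lt hlt]; simp
    · intro b hb
      have : k ≠ b := by
        have := mem_range.mp hb
        omega
      simp [this]

/-- integer coefficient -/
def dc (n k : ℕ) : ℤ := ((n.choose k * (n + k).choose k : ℕ) : ℤ)

theorem coeff_Dz' (n k : ℕ) : (Dz n).coeff k = dc n k := coeff_Dz n k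

theorem dc_zero (n : ℕ) : dc n 0 = 1 := by simp [dc]

theorem dc_of_lt {n k : ℕ} (h : n < k) : dc n k = 0 := by
  simp [dc, Nat.choose_eq_zero_of_lt h]

/-- the ratio of consecutive coefficients in `k` -/
theorem dc_succ (n k : ℕ) :
    dc n (k + 1) * ((k : ℤ) + 1) ^ 2 = dc n k * (((n : ℤ) + k + 1) * ((n : ℤ) - k)) := by
  rcases lt_or_ge n (k + 1) with h | h
  · rw [dc_of_lt h]
    rcases lt_or_ge n k with h' | h'
    · rw [dc_of_lt h']; ring
    · have : n = k := by omega
      subst this; ring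
  · obtain ⟨m, rfl⟩ : ∃ m, n = k + 1 + m := ⟨n - (k + 1), by omega⟩
    unfold dc
    have h1 : ((k + 1 + m).choose (k + 1)) * (k + 1) = ((k + 1 + m).choose k) * (m + 1) := by
      have := Nat.choose_succ_right_eq (k + 1 + m) k
      rw [this]; congr 1; omega
    have h2 : ((k + 1 + m + (k + 1)).choose (k + 1)) * (k + 1)
        = (k + 1 + m + k).choose k * (k + 1 + m + k + 1) := by
      have := Nat.add_one_mul_choose_eq (k + 1 + m + k) k
      have e : k + 1 + m + (k + 1) = k + 1 + m + k + 1 := by ring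
      rw [e, ← this]; ring
    have h1' : ((((k + 1 + m).choose (k + 1) : ℕ) : ℤ)) * ((k : ℤ) + 1)
        = ((((k + 1 + m).choose k : ℕ)) : ℤ) * ((m : ℤ) + 1) := by exact_mod_cast h1
    have h2' : ((((k + 1 + m + (k + 1)).choose (k + 1) : ℕ) : ℤ)) * ((k : ℤ) + 1)
        = ((((k + 1 + m + k).choose k : ℕ)) : ℤ) * ((k : ℤ) + 1 + m + k + 1) := by exact_mod_cast h2
    push_cast
    calc _ = ((((k + 1 + m).choose (k + 1) : ℕ) : ℤ) * ((k : ℤ) + 1)) *
          ((((k + 1 + m + (k + 1)).choose (k + 1) : ℕ) : ℤ) * ((k : ℤ) + 1)) := by ring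
      _ = _ := by rw [h1', h2']; ring

/-- the ratio of consecutive coefficients in `n` -/
theorem dc_succ_left (n k : ℕ) :
    dc (n + 1) k * ((n : ℤ) + 1 - k) = dc n k * ((n : ℤ) + 1 + k) := by
  rcases lt_or_ge n k with h | h
  · rw [dc_of_lt h]
    rcases lt_or_ge (n + 1) k with h' | h'
    · rw [dc_of_lt h']; ring
    · have : k = n + 1 := by omega
      subst this; push_cast; ring
  · obtain ⟨m, rfl⟩ : ∃ m, n = k + m := ⟨n - k, by omega⟩
    unfold dc
    have h1 : ((k + m + 1).choose k) * (m + 1) = ((k + m).choose k) * (k + m + 1) := by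
      have := Nat.choose_mul_succ_eq (k + m) k
      rw [this]; congr 1; omega
    have h2 : ((k + m + 1 + k).choose k) * (k + m + 1)
        = ((k + m + k).choose k) * (k + m + k + 1) := by
      have := Nat.choose_mul_succ_eq (k + m + k) k
      have e : k + m + 1 + k = k + m + k + 1 := by ring
      rw [e, this]; congr 1; omega
    have h1' : ((((k + m + 1).choose k : ℕ) : ℤ)) * ((m : ℤ) + 1)
        = ((((k + m).choose k : ℕ)) : ℤ) * ((k : ℤ) + m + 1) := by exact_mod_cast h1
    have h2' : ((((k + m + 1 + k).choose k : ℕ) : ℤ)) * ((k : ℤ) + m + 1)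
        = ((((k + m + k).choose k : ℕ)) : ℤ) * ((k : ℤ) + m + k + 1) := by exact_mod_cast h2
    have hne : ((k : ℤ) + m + 1) ≠ 0 := by positivity
    apply mul_right_cancel₀ hne
    push_cast
    calc _ = ((((k + m + 1).choose k : ℕ) : ℤ) * ((m : ℤ) + 1)) *
          ((((k + m + 1 + k).choose k : ℕ) : ℤ) * ((k : ℤ) + m + 1)) := by ring
      _ = _ := by rw [h1', h2']; ring

end Pool.Agent.helper60.DK
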