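import Pool.Agent.helper60.DK.FIN2

/-!
# The criterion: `S_p(x) ≡ 0 (mod p^2)` iff the truncated series vanishes mod `p`
-/

namespace Pool.Agent.helper60.DK

open Polynomial Finset

section
variable {p : ℕ} [hp : Fact p.Prime]

theorem den_ne {x : ℚ} (h : ¬ p ∣ x.den) : ((x.den : ℕ) : ZMod p) ≠ 0 := by
  rw [Ne, ZMod.natCast_eq_zero_iff]; exact h

theorem pi_add {x y : ℚ} (hx : ¬ p ∣ x.den) (hy : ¬ p ∣ y.den) : ¬ p ∣ (x + y).den := by
  intro h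
  rcases hp.out.dvd_mul.mp (h.trans (Rat.add_den_dvd x y)) with h | h
  · exact hx h
  · exact hy h

theorem pi_mul {x y : ℚ} (hx : ¬ p ∣ x.den) (hy : ¬ p ∣ y.den) : ¬ p ∣ (x * y).den := by
  intro h
  rcases hp.out.dvd_mul.mp (h.trans (Rat.mul_den_dvd x y)) with h | h
  · exact hx h
  · exact hy h

theorem pi_int (n : ℤ) : ¬ p ∣ ((n : ℚ)).den := by
  rw [Rat.den_intCast]; exact hp.out.not_dvd_one

theorem pi_pow {x : ℚ} (hx : ¬ p ∣ x.den) (n : ℕ) : ¬ p ∣ (x ^ n).den := by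
  rw [Rat.den_pow]
  intro h
  exact hx (hp.out.dvd_of_dvd_pow h)

theorem pc_add {x y : ℚ} (hx : ¬ p ∣ x.den) (hy : ¬ p ∣ y.den) :
    ((x + y : ℚ) : ZMod p) = (x : ZMod p) + (y : ZMod p) :=
  Rat.cast_add_of_ne_zero (den_ne hx) (den_ne hy)

theorem pc_mul {x y : ℚ} (hx : ¬ p ∣ x.den) (hy : ¬ p ∣ y.den) :
    ((x * y : ℚ) : ZMod p) = (x : ZMod p) * (y : ZMod p) :=
  Rat.cast_mul_of_ne_zero (den_ne hx) (den_ne hy)

theorem pc_pow {x : ℚ} (hx : ¬ p ∣ x.den) (n : ℕ) :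
    ((x ^ n : ℚ) : ZMod p) = (x : ZMod p) ^ n := by
  induction n with
  | zero => simp
  | succ n ih => rw [pow_succ, pow_succ, pc_mul (pi_pow hx n) hx, ih]

theorem aeval_pi (f : ℤ[X]) {x : ℚ} (hx : ¬ p ∣ x.den) :
    ¬ p ∣ (aeval x f).den ∧ ((aeval x f : ℚ) : ZMod p) = aeval ((x : ℚ) : ZMod p) f := by
  induction f using Polynomial.induction_on' with
  | add a b ha hb =>
    rw [map_add, map_add]
    exact ⟨pi_add ha.1 hb.1, by rw [pc_add ha.1 hb.1, ha.2, hb.2]⟩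
  | monomial n a =>
    rw [aeval_monomial, aeval_monomial]
    have e1 : (algebraMap ℤ ℚ) a = (a : ℚ) := by simp
    have e2 : (algebraMap ℤ (ZMod p)) a = (a : ZMod p) := by simp
    rw [e1, e2]
    exact ⟨pi_mul (pi_int a) (pi_pow hx n), by
      rw [pc_mul (pi_int a) (pi_pow hx n), pc_pow hx, Rat.cast_intCast]⟩

theorem pc_zero_iff {y : ℚ} (hy : ¬ p ∣ y.den) :
    (y : ZMod p) = 0 ↔ ∃ r : ℚ, ¬ p ∣ r.den ∧ y = (p : ℚ) * r := by
  have hpq : ((p : ℚ)) = (((p : ℤ)) : ℚ) := by norm_num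
  constructor
  · intro h
    rw [Rat.cast_def, div_eq_zero_iff] at h
    have h1 : ((y.num : ℤ) : ZMod p) = 0 := h.resolve_right (den_ne hy)
    rw [int_dvd_iff] at h1
    obtain ⟨m, hm⟩ := h1
    refine ⟨(m : ℚ) * ((y.den : ℕ) : ℚ)⁻¹, pi_mul (pi_int m) ?_, ?_⟩
    · rw [Rat.inv_natCast_den_of_pos y.pos]; exact hy
    · calc y = (y.num : ℚ) / (y.den : ℚ) := (Rat.num_div_den y).symm
        _ = (p : ℚ) * ((m : ℚ) * ((y.den : ℕ) : ℚ)⁻¹) := by
          rw [hm]; push_cast; ring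
  · rintro ⟨r, h1, h2⟩
    rw [h2, hpq, pc_mul (pi_int _) h1, Rat.cast_intCast]
    simp

theorem pi_inv {u : ℚ} (hu : ¬ p ∣ u.den) (h : (u : ZMod p) ≠ 0) :
    ¬ p ∣ (u⁻¹).den ∧ ((u⁻¹ : ℚ) : ZMod p) = ((u : ℚ) : ZMod p)⁻¹ := by
  have hu0 : u ≠ 0 := by
    rintro rfl
    simp at h
  have hi : ¬ p ∣ (u⁻¹).den := by
    rw [Rat.den_inv_of_ne_zero hu0]
    intro hd
    apply h
    rw [Rat.cast_def, div_eq_zero_iff]
    left
    rw [int_dvd_iff]
    exact Int.natCast_dvd.mpr hd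
  refine ⟨hi, ?_⟩
  have e : ((u * u⁻¹ : ℚ) : ZMod p) = 1 := by
    rw [mul_inv_cancel₀ hu0]; simp
  rw [pc_mul hu hi] at e
  exact eq_inv_of_mul_eq_one_right e

theorem WFC (h5 : 5 ≤ p) (x l : ZMod p) (hxy : 16 * (1 + x) ^ 3 * l = -27 * x ^ 2) :
    aeval x (Sz p) = (1 + x) ^ (3 * hh p) * aeval l (Cn (nn p)) := by
  have e1 : aeval x (Sz p) = aeval x (red p (Sz p)) := by
    rw [red, aeval_def, aeval_def, eval₂_map]
    rfl
  rw [e1, S_eq_W h5]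
  unfold Wp Cn
  rw [map_sum, map_sum, mul_sum]
  apply sum_congr rfl
  intro k hk
  have hkh : k ≤ hh p := by
    have := nn_lt_hh (p := p) h5
    have := mem_range.mp hk
    omega
  unfold ff bb
  have h16 : (16 : ZMod p) ≠ 0 := by
    have h2 := two_ne (p := p) h5
    have : (16 : ZMod p) = 2 ^ 4 := by norm_num
    rw [this]; exact pow_ne_zero _ h2
  have hpow : (1 + x) ^ (3 * hh p) = (1 + x) ^ (3 * (hh p - k)) * ((1 + x) ^ 3) ^ k := by
    rw [← pow_mul, ← pow_add]; congr 1; omega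
  have hl : ((1 + x) ^ 3) ^ k * l ^ k = (-27 / 16) ^ k * x ^ (2 * k) := by
    rw [← mul_pow, pow_mul, ← mul_pow]
    congr 1
    field_simp
    linear_combination hxy
  simp only [map_mul, map_pow, map_add, map_one, aeval_X, aeval_C]
  have m1 : (algebraMap (ZMod p) (ZMod p)) (((cc (nn p) k : ℤ) : ZMod p) * (-27 / 16) ^ k)
      = ((cc (nn p) k : ℤ) : ZMod p) * (-27 / 16) ^ k := rfl
  have m2 : (algebraMap ℤ (ZMod p)) (cc (nn p) k) = ((cc (nn p) k : ℤ) : ZMod p) := by simp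
  have m3 : (algebraMap (ZMod p) (ZMod p)) (((cc (nn p) k : ℤ) : ZMod p))
      = ((cc (nn p) k : ℤ) : ZMod p) := rfl
  have m4 : (algebraMap (ZMod p) (ZMod p)) (-27 / 16) = -27 / 16 := rfl
  rw [m2, m3, m4, hpow]
  linear_combination -(((cc (nn p) k : ℤ) : ZMod p) * (1 + x) ^ (3 * (hh p - k))) * hl

theorem aeval_Cn (n : ℕ) (l : ℚ) :
    aeval l (Cn n) = ∑ k ∈ range (n + 1),
      (n.choose k : ℚ) * ((n + k).choose k : ℚ) * ((2 * k).choose k : ℚ) * l ^ k := by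
  unfold Cn
  rw [map_sum]
  apply sum_congr rfl
  intro k _
  rw [map_mul, map_pow, aeval_X, aeval_C]
  unfold cc dc
  rw [Nat.centralBinom_eq_two_mul_choose]
  simp

theorem criterion (tr1 : TR1_stmt) (tr2 : TR2_stmt) (h7 : 7 ≤ p) (x : ℚ) (hd : ¬ p ∣ x.den)
    (hreg : ¬ (p : ℤ) ∣ (x * (1 + x) * (1 + 4 * x)).num) :
    CongrSq p (∑ k ∈ range p, (-1) ^ k * D k x ^ 3) 0 ↔
      ∃ r : ℚ, ¬ p ∣ r.den ∧ ∑ k ∈ range (p / 3 + 1), ((p / 3).choose k : ℚ)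
        * ((p / 3 + k).choose k : ℚ) * ((2 * k).choose k : ℚ)
        * (-27 * x ^ 2 / (16 * (1 + x) ^ 3)) ^ k = (p : ℚ) * r := by
  have h5 : 5 ≤ p := by omega
  have h1x : ¬ p ∣ (1 + x).den := by
    have := pi_add (p := p) (pi_int 1) hd
    simpa using this
  have h14x : ¬ p ∣ (1 + 4 * x).den := by
    have := pi_add (p := p) (pi_int 1) (pi_mul (pi_int 4) hd)
    simpa using this
  have c1 : ((1 + x : ℚ) : ZMod p) = 1 + (x : ZMod p) := by
    have := pc_add (p := p) (pi_int 1) hd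
    simpa using this
  have c2 : ((1 + 4 * x : ℚ) : ZMod p) = 1 + 4 * (x : ZMod p) := by
    have h := pc_add (p := p) (pi_int 1) (pi_mul (pi_int 4) hd)
    have h' := pc_mul (p := p) (pi_int 4) hd
    rw [h'] at h
    simpa using h
  have hcast : (x : ZMod p) * (1 + (x : ZMod p)) * (1 + 4 * (x : ZMod p)) ≠ 0 := by
    intro h
    apply hreg
    rw [← int_dvd_iff]
    have e : ((x * (1 + x) * (1 + 4 * x) : ℚ) : ZMod p) = 0 := by
      rw [pc_mul (pi_mul hd h1x) h14x, pc_mul hd h1x, c1, c2, h]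
    rw [Rat.cast_def, div_eq_zero_iff] at e
    exact e.resolve_right (den_ne (pi_mul (pi_mul hd h1x) h14x))
  have hx1 : (1 + (x : ZMod p)) ≠ 0 := by
    intro h; rw [h] at hcast; simp at hcast
  have h2 := two_ne (p := p) h5
  have h16 : (16 : ZMod p) ≠ 0 := by
    have : (16 : ZMod p) = 2 ^ 4 := by norm_num
    rw [this]; exact pow_ne_zero _ h2
  -- the denominator `16 (1+x)^3`
  have hu : ¬ p ∣ (16 * (1 + x) ^ 3 : ℚ).den := by
    have := pi_mul (p := p) (pi_int 16) (pi_pow h1x 3)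
    simpa using this
  have cu : ((16 * (1 + x) ^ 3 : ℚ) : ZMod p) = 16 * (1 + (x : ZMod p)) ^ 3 := by
    have h := pc_mul (p := p) (pi_int 16) (pi_pow h1x 3)
    rw [pc_pow h1x, c1] at h
    simpa using h
  have hu0 : ((16 * (1 + x) ^ 3 : ℚ) : ZMod p) ≠ 0 := by
    rw [cu]
    exact mul_ne_zero h16 (pow_ne_zero _ hx1)
  obtain ⟨hi, ci⟩ := pi_inv hu hu0
  have hn : ¬ p ∣ (-27 * x ^ 2 : ℚ).den := by
    have := pi_mul (p := p) (pi_int (-27)) (pi_pow hd 2)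
    simpa using this
  have cn : ((-27 * x ^ 2 : ℚ) : ZMod p) = -27 * (x : ZMod p) ^ 2 := by
    have h := pc_mul (p := p) (pi_int (-27)) (pi_pow hd 2)
    rw [pc_pow hd] at h
    simpa using h
  have hl : ¬ p ∣ (-27 * x ^ 2 / (16 * (1 + x) ^ 3) : ℚ).den := by
    rw [div_eq_mul_inv]; exact pi_mul hn hi
  have cl : ((-27 * x ^ 2 / (16 * (1 + x) ^ 3) : ℚ) : ZMod p)
      = -27 * (x : ZMod p) ^ 2 / (16 * (1 + (x : ZMod p)) ^ 3) := by
    rw [div_eq_mul_inv, pc_mul hn hi, ci, cu, cn, div_eq_mul_inv]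
  have hW := WFC (p := p) h5 (x : ZMod p)
    ((-27 * x ^ 2 / (16 * (1 + x) ^ 3) : ℚ) : ZMod p) (by rw [cl]; field_simp)
  obtain ⟨pS, cS⟩ := aeval_pi (p := p) (Sz p) hd
  obtain ⟨pC, cC⟩ := aeval_pi (p := p) (Cn (nn p)) hl
  have hC := aeval_Cn (nn p) (-27 * x ^ 2 / (16 * (1 + x) ^ 3))
  unfold nn at hC
  rw [← hC]
  change _ ↔ ∃ r : ℚ, ¬ p ∣ r.den ∧ (aeval (-27 * x ^ 2 / (16 * (1 + x) ^ 3)) (Cn (nn p))) = _
  rw [← pc_zero_iff pC, cC]
  constructor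
  · rintro ⟨r, h1, h2⟩
    have h3 : ((aeval x (Sz p) : ℚ) : ZMod p) = 0 := by
      rw [pc_zero_iff pS]
      refine ⟨(p : ℚ) * r, ?_, ?_⟩
      · have := pi_mul (p := p) (pi_int (p : ℤ)) h1
        simpa using this
      · rw [aeval_Sz]
        rw [sub_zero] at h2
        rw [h2]; ring
    rw [cS, hW] at h3
    exact (mul_eq_zero.mp h3).resolve_left (pow_ne_zero _ hx1)
  · intro h0
    rw [h0, mul_zero] at hW
    apply fin_reg tr1 tr2 h7 x hd (x : ZMod p) _ hcast hW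
    rw [Rat.cast_def]
    exact div_mul_cancel₀ _ (den_ne hd)

end

end Pool.Agent.helper60.DK
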