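import Pool.Agent.helper60.DK.Wdef

/-!
# Clausen's identity `D_n(X)^2 = ∑ C(n,k) C(n+k,k) C(2k,k) (X(1+X))^k`
-/

namespace Pool.Agent.helper60.DK

open Polynomial Finset

/-- `C_n(λ)` -/
noncomputable def Cn (n : ℕ) : ℤ[X] := ∑ k ∈ range (n + 1), C (cc n k) * X ^ k

theorem coeff_Cn (n k : ℕ) : (Cn n).coeff k = cc n k := by
  unfold Cn
  simp only [finset_sum_coeff, coeff_C_mul, coeff_X_pow]
  by_cases hk : k ∈ range (n + 1)
  · rw [Finset.sum_eq_single k]
    · simp
    · intro b _ hb
      simp [Ne.symm hb]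
    · intro h
      exact absurd hk h
  · have hlt : n < k := by
      simpa using hk
    rw [Finset.sum_eq_zero]
    · rw [cc_of_lt hlt]
    · intro b hb
      have : k ≠ b := by
        have := mem_range.mp hb
        omega
      simp [this]

theorem co1 (f : ℤ[X]) (k : ℕ) : (X * derivative f).coeff k = (k : ℤ) * f.coeff k :=
  coeff_theta f k

theorem co2 (f : ℤ[X]) (k : ℕ) :
    (X * derivative (derivative f)).coeff k = ((k : ℤ) + 1) * k * f.coeff (k + 1) := by
  rw [coeff_theta, coeff_derivative]; push_cast; ring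

theorem co2' (f : ℤ[X]) (k : ℕ) :
    (X * (X * derivative (derivative f))).coeff k = (k : ℤ) * (k - 1) * f.coeff k := by
  cases k with
  | zero => simp
  | succ k => rw [coeff_X_mul, co2]; push_cast; ring

theorem co3 (f : ℤ[X]) (k : ℕ) :
    (X * (X * derivative (derivative (derivative f)))).coeff k
      = ((k : ℤ) + 1) * k * (k - 1) * f.coeff (k + 1) := by
  rw [co2', coeff_derivative]; push_cast; ring

theorem co3' (f : ℤ[X]) (k : ℕ) :
    (X * (X * (X * derivative (derivative (derivative f))))).coeff k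
      = (k : ℤ) * (k - 1) * (k - 2) * f.coeff k := by
  cases k with
  | zero => simp
  | succ k => rw [coeff_X_mul, co3]; push_cast; ring

theorem Cn_ode (n : ℕ) :
    X ^ 2 * (1 + 4 * X) * derivative (derivative (derivative (Cn n)))
      + (3 * X + 18 * X ^ 2) * derivative (derivative (Cn n))
      + (1 + 12 * X - 4 * ((n : ℤ[X]) * ((n : ℤ[X]) + 1)) * X) * derivative (Cn n)
      - 2 * ((n : ℤ[X]) * ((n : ℤ[X]) + 1)) * Cn n = 0 := by
  have e : X ^ 2 * (1 + 4 * X) * derivative (derivative (derivative (Cn n)))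
      + (3 * X + 18 * X ^ 2) * derivative (derivative (Cn n))
      + (1 + 12 * X - 4 * ((n : ℤ[X]) * ((n : ℤ[X]) + 1)) * X) * derivative (Cn n)
      - 2 * ((n : ℤ[X]) * ((n : ℤ[X]) + 1)) * Cn n
      = X * (X * derivative (derivative (derivative (Cn n))))
        + C 4 * (X * (X * (X * derivative (derivative (derivative (Cn n))))))
        + C 3 * (X * derivative (derivative (Cn n)))
        + C 18 * (X * (X * derivative (derivative (Cn n))))
        + derivative (Cn n) + C (12 - 4 * ((n : ℤ) * ((n : ℤ) + 1))) * (X * derivative (Cn n))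
        - C (2 * ((n : ℤ) * ((n : ℤ) + 1))) * Cn n := by
    have h1 : (C 4 : ℤ[X]) = 4 := rfl
    have h2 : (C 3 : ℤ[X]) = 3 := rfl
    have h3 : (C 18 : ℤ[X]) = 18 := rfl
    have h4 : (C (12 - 4 * ((n : ℤ) * ((n : ℤ) + 1))) : ℤ[X]) = 12 - 4 * ((n : ℤ[X]) * ((n : ℤ[X]) + 1)) := by
      simp
    have h5 : (C (2 * ((n : ℤ) * ((n : ℤ) + 1))) : ℤ[X]) = 2 * ((n : ℤ[X]) * ((n : ℤ[X]) + 1)) := by simp
    rw [h1, h2, h3, h4, h5]
    ring
  rw [e]
  ext k
  have a1 := cc_succ n k
  simp only [coeff_add, coeff_sub, coeff_C_mul, co1, co2, co2', co3, co3', coeff_derivative,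
    coeff_Cn, coeff_zero]
  linear_combination a1

theorem comp_ders (g : ℤ[X]) :
    derivative (g.comp (X * (1 + X))) = (1 + 2 * X) * (derivative g).comp (X * (1 + X)) ∧
    derivative (derivative (g.comp (X * (1 + X))))
      = 2 * (derivative g).comp (X * (1 + X))
        + (1 + 2 * X) ^ 2 * (derivative (derivative g)).comp (X * (1 + X)) ∧
    derivative (derivative (derivative (g.comp (X * (1 + X)))))
      = 6 * (1 + 2 * X) * (derivative (derivative g)).comp (X * (1 + X))
        + (1 + 2 * X) ^ 3 * (derivative (derivative (derivative g))).comp (X * (1 + X)) := by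
  have dP : derivative (X * (1 + X) : ℤ[X]) = 1 + 2 * X := by
    simp [derivative_mul]; ring
  have h1 : ∀ g : ℤ[X], derivative (g.comp (X * (1 + X)))
      = (1 + 2 * X) * (derivative g).comp (X * (1 + X)) := by
    intro g
    rw [derivative_comp, dP]
  have d12 : derivative (1 + 2 * X : ℤ[X]) = 2 := by
    simp [derivative_mul]
  have h2 : derivative (derivative (g.comp (X * (1 + X))))
      = 2 * (derivative g).comp (X * (1 + X))
        + (1 + 2 * X) ^ 2 * (derivative (derivative g)).comp (X * (1 + X)) := by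
    rw [h1, derivative_mul, h1, d12]; ring
  refine ⟨h1 g, h2, ?_⟩
  have d2 : derivative ((1 + 2 * X) ^ 2 : ℤ[X]) = 4 * (1 + 2 * X) := by
    rw [derivative_pow, d12]; simp; ring
  rw [h2, derivative_add, derivative_mul (f := ((1 + 2 * X) ^ 2 : ℤ[X])), d2,
    derivative_mul (f := (2 : ℤ[X])), h1, h1]
  simp only [derivative_ofNat]
  ring

theorem clausen (n : ℕ) : (Cn n).comp (X * (1 + X)) = (Dz n) ^ 2 := by
  by_contra hne
  set Y : ℤ[X] := (Cn n).comp (X * (1 + X)) - (Dz n) ^ 2 with hY
  have hY0 : Y ≠ 0 := sub_ne_zero.mpr hne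
  -- the equation for the left side
  obtain ⟨c1, c2, c3⟩ := comp_ders (Cn n)
  have hC := congrArg (fun f => f.comp (X * (1 + X))) (Cn_ode n)
  simp only [add_comp, sub_comp, mul_comp, X_comp, one_comp, ofNat_comp, pow_comp,
    natCast_comp, zero_comp] at hC
  have hL : (1 + X) ^ 2 * X ^ 2 * derivative (derivative (derivative ((Cn n).comp (X * (1 + X)))))
      + 3 * (1 + X) * (1 + 2 * X) * X * derivative (derivative ((Cn n).comp (X * (1 + X))))
      + (1 + 6 * (X * (1 + X)) - 4 * ((n : ℤ[X]) * ((n : ℤ[X]) + 1)) * (X * (1 + X)))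
          * derivative ((Cn n).comp (X * (1 + X)))
      - 2 * ((n : ℤ[X]) * ((n : ℤ[X]) + 1)) * (1 + 2 * X) * ((Cn n).comp (X * (1 + X))) = 0 := by
    rw [c3, c2, c1]
    linear_combination (1 + 2 * X) * hC
  -- the equation for the right side
  have h2 := ode_two n
  have h3 := ode_three n
  have e1 : derivative ((Dz n) ^ 2) = 2 * Dz n * derivative (Dz n) := by
    rw [derivative_pow]; simp
  have e2 : derivative (derivative ((Dz n) ^ 2))
      = 2 * (derivative (Dz n)) ^ 2 + 2 * Dz n * derivative (derivative (Dz n)) := by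
    rw [e1, derivative_mul, derivative_mul]; simp; ring
  have e3 : derivative (derivative (derivative ((Dz n) ^ 2)))
      = 6 * derivative (Dz n) * derivative (derivative (Dz n))
        + 2 * Dz n * derivative (derivative (derivative (Dz n))) := by
    rw [e2, derivative_add, derivative_mul, derivative_mul, derivative_mul, derivative_pow]
    simp; ring
  have hR : (1 + X) ^ 2 * X ^ 2 * derivative (derivative (derivative ((Dz n) ^ 2)))
      + 3 * (1 + X) * (1 + 2 * X) * X * derivative (derivative ((Dz n) ^ 2))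
      + (1 + 6 * (X * (1 + X)) - 4 * ((n : ℤ[X]) * ((n : ℤ[X]) + 1)) * (X * (1 + X)))
          * derivative ((Dz n) ^ 2)
      - 2 * ((n : ℤ[X]) * ((n : ℤ[X]) + 1)) * (1 + 2 * X) * ((Dz n) ^ 2) = 0 := by
    rw [e3, e2, e1]
    linear_combination (6 * (X * (1 + X)) * derivative (Dz n) + 2 * (1 + 2 * X) * Dz n) * h2
      + (2 * Dz n * (X * (1 + X))) * h3
  have hX : (X - C (0 : ℤ)) = X := by simp
  have hcoef : Y.coeff 0 = 0 := by
    rw [hY, coeff_sub, coeff_zero_eq_eval_zero, coeff_zero_eq_eval_zero, eval_comp, eval_pow,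
      ← coeff_zero_eq_eval_zero (Dz n), coeff_Dz', dc_zero]
    have : eval 0 (X * (1 + X) : ℤ[X]) = 0 := by simp
    rw [this, ← coeff_zero_eq_eval_zero, coeff_Cn, cc_zero]
    simp
  have key := dvd_range (0 : ℤ) ((1 + X) ^ 2) (3 * (1 + X) * (1 + 2 * X))
    (1 + 6 * (X * (1 + X)) - 4 * ((n : ℤ[X]) * ((n : ℤ[X]) + 1)) * (X * (1 + X)))
    (-2 * ((n : ℤ[X]) * ((n : ℤ[X]) + 1)) * (1 + 2 * X)) Y 1 (Y.natDegree + 1) (by omega)
    (by
      rw [hX, hY]
      simp only [derivative_sub]
      linear_combination hL - hR)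
    (by rw [hX, pow_one]; exact X_dvd_iff.mpr hcoef)
    (by
      intro m h1 _
      have hm : (m : ℤ) ≠ 0 := by exact_mod_cast (by omega : m ≠ 0)
      have : (m : ℤ) ^ 3 ≠ 0 := pow_ne_zero _ hm
      convert this using 1
      simp only [eval_mul, eval_add, eval_pow, eval_X, eval_one, eval_ofNat, eval_sub]
      ring)
  rw [hX] at key
  have := natDegree_le_of_dvd key hY0
  rw [natDegree_X_pow] at this
  omega

end Pool.Agent.helper60.DK
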