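import Mathlib

/-!
# Definitions used in the statements about MP_fb2c2a_nt
-/

namespace Pool.Agent.helper60.DK

/-- `D_n(x) = ∑_{k=0}^{n} C(n,k) C(n+k,k) x^k` for rational `x`. -/
def D (n : ℕ) (x : ℚ) : ℚ :=
  ∑ k ∈ Finset.range (n + 1), (n.choose k : ℚ) * ((n + k).choose k : ℚ) * x ^ k

/-- `a ≡ b (mod p^2)` for rational numbers: `a - b = p^2 r` with `r` rational whose denominator is
prime to `p`. -/
def CongrSq (p : ℕ) (a b : ℚ) : Prop :=
  ∃ r : ℚ, ¬ p ∣ r.den ∧ a - b = (p : ℚ) ^ 2 * r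

end Pool.Agent.helper60.DK
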