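import Pool.Agent.helper60.DK.QUA
import Pool.Agent.helper60.DK.WF
import Pool.Agent.helper60.DK.Defs

/-!
# Assembly
-/

namespace Pool.Agent.helper60.DK

open Polynomial Finset

theorem aeval_Dz (n : ℕ) (x : ℚ) : aeval x (Dz n) = D n x := by
  unfold Dz D
  rw [map_sum]
  apply sum_congr rfl
  intro k _
  simp [map_mul]

theorem aeval_Sz (N : ℕ) (x : ℚ) : aeval x (Sz N) = ∑ k ∈ range N, (-1) ^ k * D k x ^ 3 := by
  unfold Sz
  rw [map_sum]
  apply sum_congr rfl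
  intro k _
  rw [map_mul, map_pow, map_pow, aeval_Dz]
  simp

theorem D_par (par : PAR_stmt) (n : ℕ) (x : ℚ) : D n (-1 - x) = (-1) ^ n * D n x := by
  have h := congrArg (aeval x) (par n)
  rw [aeval_comp, map_mul, map_pow, map_neg, map_one] at h
  have e : aeval x (-1 - X : ℤ[X]) = -1 - x := by simp
  rw [e, aeval_Dz, aeval_Dz] at h
  exact h

theorem sum_par (par : PAR_stmt) (N : ℕ) (x : ℚ) :
    ∑ k ∈ range N, D k (-1 - x) ^ 3 = ∑ k ∈ range N, (-1) ^ k * D k x ^ 3 := by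
  apply sum_congr rfl
  intro k _
  rw [D_par par, mul_pow, ← pow_mul, mul_comm k 3, pow_mul]
  norm_num

theorem aeval_red {p : ℕ} [Fact p.Prime] (t : ℤ) (f : ℤ[X]) :
    aeval ((t : ℤ) : ZMod p) f = ((f.eval t : ℤ) : ZMod p) := by
  have h := red_eval (p := p) f t
  rw [red, eval_map] at h
  rw [aeval_def, ← h]
  rfl

theorem cast_t {p : ℕ} [hp : Fact p.Prime] {x : ℚ} {t : ℤ} (hd : ¬ p ∣ x.den)
    (ht : (p : ℤ) ^ 2 ∣ t * x.den - x.num) (xb : ZMod p)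
    (hxb : xb * (x.den : ZMod p) = (x.num : ZMod p)) : ((t : ℤ) : ZMod p) = xb := by
  have h1 : (p : ℤ) ∣ t * x.den - x.num := (dvd_pow_self _ two_ne_zero).trans ht
  rw [← int_dvd_iff] at h1
  push_cast at h1
  have h2 : (x.den : ZMod p) ≠ 0 := by
    rw [Ne, ZMod.natCast_eq_zero_iff]; exact hd
  apply mul_right_cancel₀ h2
  rw [hxb]
  linear_combination h1

theorem fin_reg (tr1 : TR1_stmt) (tr2 : TR2_stmt) {p : ℕ} [hp : Fact p.Prime] (h7 : 7 ≤ p)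
    (x : ℚ) (hd : ¬ p ∣ x.den) (xb : ZMod p) (hxb : xb * (x.den : ZMod p) = (x.num : ZMod p))
    (hreg : xb * (1 + xb) * (1 + 4 * xb) ≠ 0) (h0 : aeval xb (Sz p) = 0) :
    CongrSq p (∑ k ∈ range p, (-1) ^ k * D k x ^ 3) 0 := by
  obtain ⟨t, ht⟩ := tr1 p x hd
  have hc := cast_t hd ht xb hxb
  rw [← hc] at h0 hreg
  rw [aeval_red, int_dvd_iff] at h0
  have hr : ¬ (p : ℤ) ∣ t * (1 + t) * (1 + 4 * t) := by
    intro h
    apply hreg
    rw [← int_dvd_iff] at h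
    push_cast at h
    exact h
  have h1 := super_regular h7 t hr h0
  obtain ⟨r, hr1, hr2⟩ := tr2 p (Sz p) x t hd ht h1
  exact ⟨r, hr1, by rw [← aeval_Sz, hr2, sub_zero]⟩

theorem fin_sing (tr1 : TR1_stmt) (tr2 : TR2_stmt) {p : ℕ} [hp : Fact p.Prime] (h7 : 7 ≤ p)
    (hw : (derivative (red p (Sz p))).eval (-1 / 4 : ZMod p) ≠ 0)
    (h0 : aeval (-1 / 4 : ZMod p) (Sz p) = 0) :
    CongrSq p (∑ k ∈ range p, (-1) ^ k * D k (-1 / 4) ^ 3) 0 := by
  have hden : (-1 / 4 : ℚ).den = 4 := by norm_num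
  have hnum : (-1 / 4 : ℚ).num = -1 := by norm_num
  have hd : ¬ p ∣ (-1 / 4 : ℚ).den := by
    rw [hden]
    intro h
    have := Nat.le_of_dvd (by norm_num) h
    omega
  have h4 := four_ne (p := p) (by omega)
  obtain ⟨t, ht⟩ := tr1 p (-1 / 4) hd
  have hc := cast_t hd ht (-1 / 4 : ZMod p) (by
    rw [hden, hnum]
    push_cast
    field_simp)
  have ht' : (p : ℤ) ^ 2 ∣ 4 * t + 1 := by
    have h := ht
    rw [hden, hnum] at h
    have e : t * ((4 : ℕ) : ℤ) - -1 = 4 * t + 1 := by push_cast; ring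
    rwa [e] at h
  rw [← hc] at h0 hw
  rw [aeval_red, int_dvd_iff] at h0
  have hw' : ¬ (p : ℤ) ∣ (derivative (Sz p)).eval t := by
    intro h
    apply hw
    rw [red, derivative_map]
    change (red p (derivative (Sz p))).eval _ = 0
    rw [red_eval, int_dvd_iff]
    exact h
  have h1 := QUA p h7 t ht' h0 hw'
  obtain ⟨r, hr1, hr2⟩ := tr2 p (Sz p) (-1 / 4) t hd ht h1
  exact ⟨r, hr1, by rw [← aeval_Sz, hr2, sub_zero]⟩

theorem small_ne {p : ℕ} [hp : Fact p.Prime] (h7 : 7 ≤ p) {m : ℕ} (hm : m ≠ 0)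
    (hs : ∀ q : ℕ, q.Prime → q ∣ m → q < 7) : (m : ZMod p) ≠ 0 := by
  rw [Ne, ZMod.natCast_eq_zero_iff]
  intro h
  have := hs p hp.out h
  omega

end Pool.Agent.helper60.DK
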