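import Pool.Agent.helper60.DK.FIN

/-!
# Parts (a), (b), (c), inert half, from the rows
-/

namespace Pool.Agent.helper60.DK

open Polynomial Finset

theorem nat_ne {p : ℕ} [hp : Fact p.Prime] (h7 : 7 ≤ p) (a b c : ℕ) :
    ((2 ^ a * 3 ^ b * 5 ^ c : ℕ) : ZMod p) ≠ 0 := by
  apply small_ne h7 (by positivity)
  intro q hq h
  rcases (hq.dvd_mul).mp h with h | h
  · rcases (hq.dvd_mul).mp h with h | h
    · have := (Nat.prime_dvd_prime_iff_eq hq Nat.prime_two).mp (hq.dvd_of_dvd_pow h)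
      omega
    · have := (Nat.prime_dvd_prime_iff_eq hq Nat.prime_three).mp (hq.dvd_of_dvd_pow h)
      omega
  · have := (Nat.prime_dvd_prime_iff_eq hq Nat.prime_five).mp (hq.dvd_of_dvd_pow h)
    omega

theorem val_two (tr1 : TR1_stmt) (tr2 : TR2_stmt) {p : ℕ} [hp : Fact p.Prime] (h7 : 7 ≤ p)
    (h0 : aeval (2 : ZMod p) (Sz p) = 0) :
    CongrSq p (∑ k ∈ range p, (-1) ^ k * D k 2 ^ 3) 0 := by
  apply fin_reg tr1 tr2 h7 2 _ 2 _ _ h0
  · have : (2 : ℚ).den = 1 := by norm_num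
    rw [this]
    exact hp.out.not_dvd_one
  · have e1 : (2 : ℚ).den = 1 := by norm_num
    have e2 : (2 : ℚ).num = 2 := by norm_num
    rw [e1, e2]; push_cast; ring
  · have h := nat_ne (p := p) h7 1 3 0
    have e : (2 : ZMod p) * (1 + 2) * (1 + 4 * 2) = ((2 ^ 1 * 3 ^ 3 * 5 ^ 0 : ℕ) : ZMod p) := by
      push_cast; ring
    rwa [e]

theorem val_neg_four (tr1 : TR1_stmt) (tr2 : TR2_stmt) {p : ℕ} [hp : Fact p.Prime] (h7 : 7 ≤ p)
    (h0 : aeval (-4 : ZMod p) (Sz p) = 0) :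
    CongrSq p (∑ k ∈ range p, (-1) ^ k * D k (-4) ^ 3) 0 := by
  have e1 : (-4 : ℚ).den = 1 := by norm_num
  have e2 : (-4 : ℚ).num = -4 := by norm_num
  apply fin_reg tr1 tr2 h7 (-4) _ (-4) _ _ h0
  · rw [e1]
    exact hp.out.not_dvd_one
  · rw [e1, e2]; push_cast; ring
  · have h := nat_ne (p := p) h7 2 2 1
    have e : (-4 : ZMod p) * (1 + -4) * (1 + 4 * -4) = -((2 ^ 2 * 3 ^ 2 * 5 ^ 1 : ℕ) : ZMod p) := by
      push_cast; ring
    rw [e]
    exact neg_ne_zero.mpr h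

theorem not_dvd_pow_two {p : ℕ} [hp : Fact p.Prime] (h7 : 7 ≤ p) (a : ℕ) : ¬ p ∣ 2 ^ a := by
  intro h
  have := Nat.le_of_dvd (by norm_num) (hp.out.dvd_of_dvd_pow h)
  omega

theorem val_eighth (tr1 : TR1_stmt) (tr2 : TR2_stmt) {p : ℕ} [hp : Fact p.Prime] (h7 : 7 ≤ p)
    (h0 : aeval (1 / 8 : ZMod p) (Sz p) = 0) :
    CongrSq p (∑ k ∈ range p, (-1) ^ k * D k (1 / 8) ^ 3) 0 := by
  have e1 : (1 / 8 : ℚ).den = 2 ^ 3 := by norm_num
  have e2 : (1 / 8 : ℚ).num = 1 := by norm_num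
  have h2 := two_ne (p := p) (by omega)
  have h8 : (8 : ZMod p) ≠ 0 := by
    have : (8 : ZMod p) = 2 ^ 3 := by norm_num
    rw [this]; exact pow_ne_zero _ h2
  apply fin_reg tr1 tr2 h7 (1 / 8) _ (1 / 8) _ _ h0
  · rw [e1]
    exact not_dvd_pow_two h7 3
  · rw [e1, e2]
    push_cast
    field_simp
  · intro h
    have h3 := nat_ne (p := p) h7 2 3 0
    apply h3
    have e : ((2 ^ 2 * 3 ^ 3 * 5 ^ 0 : ℕ) : ZMod p)
        = 8 ^ 3 * ((1 / 8 : ZMod p) * (1 + 1 / 8) * (1 + 4 * (1 / 8))) := by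
      push_cast
      field_simp
      ring
    rw [e, h, mul_zero]

theorem val_half (tr1 : TR1_stmt) (tr2 : TR2_stmt) {p : ℕ} [hp : Fact p.Prime] (h7 : 7 ≤ p)
    (h0 : aeval (1 / 2 : ZMod p) (Sz p) = 0) :
    CongrSq p (∑ k ∈ range p, (-1) ^ k * D k (1 / 2) ^ 3) 0 := by
  have e1 : (1 / 2 : ℚ).den = 2 ^ 1 := by norm_num
  have e2 : (1 / 2 : ℚ).num = 1 := by norm_num
  have h2 := two_ne (p := p) (by omega)
  apply fin_reg tr1 tr2 h7 (1 / 2) _ (1 / 2) _ _ h0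
  · rw [e1]
    exact not_dvd_pow_two h7 1
  · rw [e1, e2]
    push_cast
    field_simp
  · intro h
    have h3 := nat_ne (p := p) h7 1 2 0
    apply h3
    have e : ((2 ^ 1 * 3 ^ 2 * 5 ^ 0 : ℕ) : ZMod p)
        = 2 ^ 3 * ((1 / 2 : ZMod p) * (1 + 1 / 2) * (1 + 4 * (1 / 2))) := by
      push_cast
      field_simp
      ring
    rw [e, h, mul_zero]

theorem val_sixteenth (tr1 : TR1_stmt) (tr2 : TR2_stmt) {p : ℕ} [hp : Fact p.Prime] (h7 : 7 ≤ p)
    (h0 : aeval (-1 / 16 : ZMod p) (Sz p) = 0) :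
    CongrSq p (∑ k ∈ range p, (-1) ^ k * D k (-1 / 16) ^ 3) 0 := by
  have e1 : (-1 / 16 : ℚ).den = 2 ^ 4 := by norm_num
  have e2 : (-1 / 16 : ℚ).num = -1 := by norm_num
  have h2 := two_ne (p := p) (by omega)
  have h16 : (16 : ZMod p) ≠ 0 := by
    have : (16 : ZMod p) = 2 ^ 4 := by norm_num
    rw [this]; exact pow_ne_zero _ h2
  apply fin_reg tr1 tr2 h7 (-1 / 16) _ (-1 / 16) _ _ h0
  · rw [e1]
    exact not_dvd_pow_two h7 4
  · rw [e1, e2]
    push_cast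
    field_simp
  · intro h
    have h3 := nat_ne (p := p) h7 2 2 1
    apply h3
    have e : ((2 ^ 2 * 3 ^ 2 * 5 ^ 1 : ℕ) : ZMod p)
        = -(16 ^ 3 * ((-1 / 16 : ZMod p) * (1 + -1 / 16) * (1 + 4 * (-1 / 16)))) := by
      push_cast
      field_simp
      ring
    rw [e, h, mul_zero, neg_zero]

/-- part (a) for `p ≡ 2 (mod 3)` -/
theorem partA (tr1 : TR1_stmt) (tr2 : TR2_stmt) (par : PAR_stmt) (p2 : P2_stmt) (p8 : P8_stmt)
    (w14 : W14_stmt) (p5 : P5_stmt) (p : ℕ) (hp : p.Prime) (h3 : 3 < p) (hm : p % 3 = 2) :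
    CongrSq p (∑ k ∈ range p, D k (-3) ^ 3) 0 ∧
    CongrSq p (∑ k ∈ range p, (-1) ^ k * D k (-1 / 4) ^ 3) 0 ∧
    CongrSq p (∑ k ∈ range p, (-1) ^ k * D k (1 / 8) ^ 3) 0 := by
  haveI : Fact p.Prime := ⟨hp⟩
  have e3 : (-3 : ℚ) = -1 - 2 := by norm_num
  rw [e3, sum_par par]
  by_cases h5 : p = 5
  · subst h5
    have conv : ∀ x ∈ ({2, -1 / 4, 1 / 8} : Set ℚ),
        CongrSq 5 (∑ k ∈ range 5, (-1) ^ k * D k x ^ 3) 0 := by
      intro x hx
      obtain ⟨r, h1, h2⟩ := p5 x hx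
      exact ⟨r, h1, by rw [← aeval_Sz, h2, sub_zero]; norm_num⟩
    exact ⟨conv 2 (by simp), conv (-1 / 4) (by simp), conv (1 / 8) (by simp)⟩
  · have h7 : 7 ≤ p := by
      by_contra hlt
      have h4 : p = 4 ∨ p = 6 := by omega
      rcases h4 with h4 | h4
      · rw [h4] at hp; revert hp; norm_num
      · rw [h4] at hp; revert hp; norm_num
    obtain ⟨a1, a2⟩ := p2 p (by omega) hm
    exact ⟨val_two tr1 tr2 h7 a1, fin_sing tr1 tr2 h7 (w14 p (by omega) hm) a2,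
      val_eighth tr1 tr2 h7 (p8 p (by omega) hm)⟩

theorem leg5 : @legendreSym 5 ⟨Nat.prime_five⟩ (-6) = 1 := by
  rw [@legendreSym.eq_one_iff 5 ⟨Nat.prime_five⟩ (-6) (by decide)]
  exact ⟨2, by decide⟩

/-- part (b) for `(-6/p) = -1` -/
theorem partB (tr1 : TR1_stmt) (tr2 : TR2_stmt) (p12 : P12_stmt) (p : ℕ) [hp : Fact p.Prime]
    (h3 : 3 < p) (hm : legendreSym p (-6) = -1) :
    CongrSq p (∑ k ∈ range p, (-1) ^ k * D k (1 / 2) ^ 3) 0 := by
  have h7 : 7 ≤ p := by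
    by_contra hlt
    have h4 : p = 4 ∨ p = 5 ∨ p = 6 := by omega
    rcases h4 with h4 | h4 | h4
    · have := hp.out; rw [h4] at this; revert this; norm_num
    · subst h4
      have : legendreSym 5 (-6) = 1 := leg5
      rw [this] at hm
      norm_num at hm
    · have := hp.out; rw [h4] at this; revert this; norm_num
  exact val_half tr1 tr2 h7 (p12 p (by omega) hm)

theorem jac_leg (p : ℕ) [hp : Fact p.Prime] (h3 : 3 < p) (h : jacobiSym (p : ℤ) 15 = -1) :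
    7 ≤ p ∧ legendreSym p (-15) = -1 := by
  have h7 : 7 ≤ p := by
    by_contra hlt
    have h4 : p = 4 ∨ p = 5 ∨ p = 6 := by omega
    rcases h4 with h4 | h4 | h4
    · have := hp.out; rw [h4] at this; revert this; norm_num
    · subst h4
      have : jacobiSym ((5 : ℕ) : ℤ) 15 = 0 := by
        rw [jacobiSym.eq_zero_iff]
        exact ⟨by norm_num, by decide⟩
      rw [this] at h
      norm_num at h
    · have := hp.out; rw [h4] at this; revert this; norm_num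
  refine ⟨h7, ?_⟩
  have hodd : p % 2 = 1 := by
    rcases hp.out.eq_two_or_odd with h | h
    · omega
    · exact h
  have hpo : Odd p := Nat.odd_iff.mpr hodd
  rw [jacobiSym.legendreSym.to_jacobiSym]
  have e : (-15 : ℤ) = (-1) * ((15 : ℕ) : ℤ) := by norm_num
  rw [e, jacobiSym.mul_left, jacobiSym.at_neg_one hpo]
  have hc : p % 4 = 1 ∨ p % 4 = 3 := by omega
  rcases hc with hc | hc
  · rw [ZMod.χ₄_nat_one_mod_four hc, jacobiSym.quadratic_reciprocity_one_mod_four' (by decide) hc, h]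
    norm_num
  · rw [ZMod.χ₄_nat_three_mod_four hc,
      jacobiSym.quadratic_reciprocity_three_mod_four (by norm_num) hc, h]
    norm_num

/-- part (c) for `(p/15) = -1` -/
theorem partC (tr1 : TR1_stmt) (tr2 : TR2_stmt) (par : PAR_stmt) (p4 : P4_stmt) (p16 : P16_stmt)
    (p : ℕ) [hp : Fact p.Prime] (h3 : 3 < p) (hm : jacobiSym (p : ℤ) 15 = -1) :
    CongrSq p (∑ k ∈ range p, D k 3 ^ 3) 0 ∧
    CongrSq p (∑ k ∈ range p, (-1) ^ k * D k (-1 / 16) ^ 3) 0 := by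
  obtain ⟨h7, hl⟩ := jac_leg p h3 hm
  have e3 : (3 : ℚ) = -1 - (-4) := by norm_num
  rw [e3, sum_par par]
  exact ⟨val_neg_four tr1 tr2 h7 (p4 p h7 hl), val_sixteenth tr1 tr2 h7 (p16 p h7 hl)⟩

end Pool.Agent.helper60.DK
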