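import Mathlib

/-!
# Local exponents of linear differential equations with polynomial coefficients
-/

namespace Pool.Agent.helper60.DK

open Polynomial

theorem pow_ders {R : Type*} [CommRing R] (a : R) (m : ℕ) :
    (X - C a) * derivative ((X - C a) ^ m) = (m : R[X]) * (X - C a) ^ m ∧
    (X - C a) ^ 2 * derivative (derivative ((X - C a) ^ m))
      = (m : R[X]) * ((m : R[X]) - 1) * (X - C a) ^ m ∧
    (X - C a) ^ 3 * derivative (derivative (derivative ((X - C a) ^ m)))
      = (m : R[X]) * ((m : R[X]) - 1) * ((m : R[X]) - 2) * (X - C a) ^ m := by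
  have hq : derivative (X - C a : R[X]) = 1 := by simp
  have h1 : (X - C a) * derivative ((X - C a) ^ m) = (m : R[X]) * (X - C a) ^ m := by
    cases m with
    | zero => simp
    | succ m =>
      rw [derivative_pow, hq]
      simp
      ring
  have hm : derivative ((m : R[X])) = 0 := by simp
  have h2 : (X - C a) * derivative (derivative ((X - C a) ^ m))
      = ((m : R[X]) - 1) * derivative ((X - C a) ^ m) := by
    have := congrArg derivative h1
    rw [derivative_mul, derivative_mul (f := (m : R[X])), hq, hm] at this
    linear_combination this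
  have hm1 : derivative ((m : R[X]) - 1) = 0 := by simp
  have h3 : (X - C a) * derivative (derivative (derivative ((X - C a) ^ m)))
      = ((m : R[X]) - 2) * derivative (derivative ((X - C a) ^ m)) := by
    have := congrArg derivative h2
    rw [derivative_mul, derivative_mul (f := ((m : R[X]) - 1)), hq, hm1] at this
    linear_combination this
  have h2' : (X - C a) ^ 2 * derivative (derivative ((X - C a) ^ m))
      = (m : R[X]) * ((m : R[X]) - 1) * (X - C a) ^ m := by
    linear_combination (X - C a) * h2 + ((m : R[X]) - 1) * h1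
  refine ⟨h1, h2', ?_⟩
  linear_combination (X - C a) ^ 2 * h3 + ((m : R[X]) - 2) * h2'

theorem loc_key {R : Type*} [CommRing R] [IsDomain R] (a : R) (b3 b2 b1 b0 Z : R[X]) (m : ℕ)
    (h : b3 * (X - C a) ^ 2 * derivative (derivative (derivative ((X - C a) ^ m * Z)))
      + b2 * (X - C a) * derivative (derivative ((X - C a) ^ m * Z))
      + b1 * derivative ((X - C a) ^ m * Z) + b0 * ((X - C a) ^ m * Z) = 0) :
    (b3.eval a * ((m : R) * (m - 1) * (m - 2)) + b2.eval a * ((m : R) * (m - 1))
      + b1.eval a * m) * Z.eval a = 0 := by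
  obtain ⟨p1, p2, p3⟩ := pow_ders a m
  set q : R[X] := X - C a with hq
  set E : R[X] := q ^ m with hE
  have hE0 : E ≠ 0 := pow_ne_zero _ (X_sub_C_ne_zero a)
  have y1 : derivative (E * Z) = derivative E * Z + E * derivative Z := derivative_mul
  have y2 : derivative (derivative (E * Z)) = derivative (derivative E) * Z
      + 2 * derivative E * derivative Z + E * derivative (derivative Z) := by
    rw [y1, derivative_add, derivative_mul, derivative_mul]; ring
  have y3 : derivative (derivative (derivative (E * Z)))
      = derivative (derivative (derivative E)) * Z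
      + 3 * derivative (derivative E) * derivative Z
      + 3 * derivative E * derivative (derivative Z)
      + E * derivative (derivative (derivative Z)) := by
    have e2 : derivative (2 * derivative E * derivative Z)
        = 2 * derivative (derivative E) * derivative Z
          + 2 * derivative E * derivative (derivative Z) := by
      rw [derivative_mul, derivative_mul]; simp
    rw [y2, derivative_add, derivative_add, e2, derivative_mul, derivative_mul]; ring
  rw [y3, y2, y1] at h
  have key : E * (b3 * ((m : R[X]) * ((m : R[X]) - 1) * ((m : R[X]) - 2) * Z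
        + 3 * (m : R[X]) * ((m : R[X]) - 1) * q * derivative Z
        + 3 * (m : R[X]) * q ^ 2 * derivative (derivative Z)
        + q ^ 3 * derivative (derivative (derivative Z)))
      + b2 * ((m : R[X]) * ((m : R[X]) - 1) * Z + 2 * (m : R[X]) * q * derivative Z
        + q ^ 2 * derivative (derivative Z))
      + b1 * ((m : R[X]) * Z + q * derivative Z) + b0 * q * Z) = 0 := by
    linear_combination q * h - b3 * Z * p3 - 3 * b3 * q * derivative Z * p2
      - 3 * b3 * q ^ 2 * derivative (derivative Z) * p1
      - b2 * Z * p2 - 2 * b2 * q * derivative Z * p1 - b1 * Z * p1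
  have key2 := (mul_eq_zero.mp key).resolve_left hE0
  have key3 := congrArg (eval a) key2
  have hqa : q.eval a = 0 := by simp [hq]
  simp only [eval_add, eval_mul, eval_sub, eval_natCast, eval_one, eval_ofNat, eval_pow, hqa,
    eval_zero] at key3
  linear_combination key3

theorem dvd_step {R : Type*} [CommRing R] [IsDomain R] (a : R) (b3 b2 b1 b0 Y : R[X]) (m : ℕ)
    (h : b3 * (X - C a) ^ 2 * derivative (derivative (derivative Y))
      + b2 * (X - C a) * derivative (derivative Y) + b1 * derivative Y + b0 * Y = 0)
    (hd : (X - C a) ^ m ∣ Y)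
    (hm : b3.eval a * ((m : R) * (m - 1) * (m - 2)) + b2.eval a * ((m : R) * (m - 1))
      + b1.eval a * m ≠ 0) :
    (X - C a) ^ (m + 1) ∣ Y := by
  obtain ⟨Z, rfl⟩ := hd
  have := loc_key a b3 b2 b1 b0 Z m h
  have hz : Z.eval a = 0 := (mul_eq_zero.mp this).resolve_left hm
  have : (X - C a) ∣ Z := dvd_iff_isRoot.mpr hz
  rw [pow_succ]
  exact mul_dvd_mul_left _ this

theorem dvd_range {R : Type*} [CommRing R] [IsDomain R] (a : R) (b3 b2 b1 b0 Y : R[X])
    (m0 M : ℕ) (hmM : m0 ≤ M)
    (h : b3 * (X - C a) ^ 2 * derivative (derivative (derivative Y))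
      + b2 * (X - C a) * derivative (derivative Y) + b1 * derivative Y + b0 * Y = 0)
    (hd : (X - C a) ^ m0 ∣ Y)
    (hm : ∀ m : ℕ, m0 ≤ m → m < M →
      b3.eval a * ((m : R) * (m - 1) * (m - 2)) + b2.eval a * ((m : R) * (m - 1))
        + b1.eval a * m ≠ 0) :
    (X - C a) ^ M ∣ Y := by
  obtain ⟨d, rfl⟩ := Nat.exists_eq_add_of_le hmM
  induction d with
  | zero => simpa using hd
  | succ d ih =>
    have := ih (by omega) (fun m h1 h2 => hm m h1 (by omega))
    exact dvd_step a b3 b2 b1 b0 Y (m0 + d) h this (hm (m0 + d) (by omega) (by omega))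

end Pool.Agent.helper60.DK
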