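import Pool.Agent.helper60.DK.Wdef

/-!
# Reduction modulo `p`: `S_p = W`
-/

namespace Pool.Agent.helper60.DK

open Polynomial Finset

/-- reduction map -/
noncomputable abbrev red (p : ℕ) (f : ℤ[X]) : (ZMod p)[X] := f.map (Int.castRingHom (ZMod p))

section
variable {p : ℕ} [hp : Fact p.Prime]

theorem choose_zero {k j : ℕ} (hk : k < p) (hj : j < p) (hkj : p ≤ k + j) :
    (((k + j).choose j : ℕ) : ZMod p) = 0 := by
  rw [ZMod.natCast_eq_zero_iff]
  have h := Choose.choose_modEq_choose_mod_mul_choose_div_nat (n := k + j) (k := j) (p := p)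
  have e1 : (k + j) % p = k + j - p := by
    rw [Nat.mod_eq_sub_mod hkj, Nat.mod_eq_of_lt (by omega)]
  have e2 : j % p = j := Nat.mod_eq_of_lt hj
  rw [e1, e2, Nat.choose_eq_zero_of_lt (by omega : k + j - p < j), zero_mul] at h
  exact (Nat.modEq_zero_iff_dvd).mp h

theorem dc_zero_mod {k j : ℕ} (hk : k < p) (hkj : p ≤ k + j) : ((dc k j : ℤ) : ZMod p) = 0 := by
  rcases lt_or_ge k j with h | h
  · rw [dc_of_lt h]; simp
  · unfold dc
    push_cast
    rw [choose_zero hk (by omega) hkj, mul_zero]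

theorem coeff_red_Dz (k j : ℕ) : (red p (Dz k)).coeff j = ((dc k j : ℤ) : ZMod p) := by
  rw [coeff_map, coeff_Dz']; simp

theorem natDegree_red_Dz (h5 : 5 ≤ p) {k : ℕ} (hk : k < p) :
    (red p (Dz k)).natDegree ≤ hh p := by
  have h2 := two_hh (p := p) h5
  rw [natDegree_le_iff_coeff_eq_zero]
  intro j hj
  rw [coeff_red_Dz]
  rcases lt_or_ge k j with h | h
  · rw [dc_of_lt h]; simp
  · exact dc_zero_mod hk (by omega)

theorem red_Sz (N : ℕ) : red p (Sz N) = ∑ k ∈ range N, (-1) ^ k * (red p (Dz k)) ^ 3 := by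
  unfold Sz
  simp [red, Polynomial.map_sum]

theorem natDegree_red_Sz (h5 : 5 ≤ p) : (red p (Sz p)).natDegree ≤ 3 * hh p := by
  rw [red_Sz]
  apply natDegree_sum_le_of_forall_le
  intro k hk
  have hk' := mem_range.mp hk
  have h1 := natDegree_red_Dz (p := p) h5 hk'
  calc ((-1 : (ZMod p)[X]) ^ k * (red p (Dz k)) ^ 3).natDegree
      ≤ ((-1 : (ZMod p)[X]) ^ k).natDegree + ((red p (Dz k)) ^ 3).natDegree := natDegree_mul_le
    _ ≤ 0 + 3 * hh p := by
      gcongr
      · have : ((-1 : (ZMod p)[X]) ^ k) = C ((-1) ^ k) := by simp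
        rw [this, natDegree_C]
      · calc ((red p (Dz k)) ^ 3).natDegree ≤ 3 * (red p (Dz k)).natDegree := natDegree_pow_le
          _ ≤ _ := by gcongr
    _ = _ := by ring

theorem Dz_coeff_zero (k : ℕ) : (Dz k).coeff 0 = 1 := by rw [coeff_Dz', dc_zero]

theorem Sz_coeff_zero (h5 : 5 ≤ p) : (Sz p).coeff 0 = 1 := by
  rw [coeff_zero_eq_eval_zero]
  unfold Sz
  rw [eval_finset_sum]
  have : ∀ k ∈ range p, eval 0 ((-1) ^ k * Dz k ^ 3 : ℤ[X]) = (-1) ^ k := by
    intro k _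
    rw [eval_mul, eval_pow, eval_pow, ← coeff_zero_eq_eval_zero (Dz k), Dz_coeff_zero]
    simp
  rw [sum_congr rfl this, neg_one_geom_sum, if_neg]
  rw [Nat.not_even_iff]
  exact p_odd h5

theorem Dz_eval_neg_one (k : ℕ) : (Dz k).eval (-1) = (-1) ^ k := by
  induction k with
  | zero =>
    rw [Dz]; simp
  | succ k ih =>
    have h := congrArg (eval (-1)) (rel_two k)
    simp only [eval_mul, eval_add, eval_sub, eval_X, eval_one, eval_ofNat, eval_natCast, ih] at h
    have hk : ((k : ℤ) + 1) ≠ 0 := by positivity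
    have : ((k : ℤ) + 1) * (eval (-1) (Dz (k + 1))) = ((k : ℤ) + 1) * (-1) ^ (k + 1) := by
      rw [pow_succ]
      linear_combination -h
    exact mul_left_cancel₀ hk this

theorem Sz_eval_neg_one (N : ℕ) : (Sz N).eval (-1) = N := by
  unfold Sz
  rw [eval_finset_sum]
  have : ∀ k ∈ range N, eval (-1) ((-1) ^ k * Dz k ^ 3 : ℤ[X]) = 1 := by
    intro k _
    rw [eval_mul, eval_pow, eval_pow, Dz_eval_neg_one]
    simp only [eval_neg, eval_one]
    rw [← pow_mul, ← pow_add]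
    exact Even.neg_one_pow ⟨2 * k, by ring⟩
  rw [sum_congr rfl this]
  simp

theorem X_mul_ne : (2 * (1 + X) * X : (ZMod p)[X]) ≠ 0 ∨ (2 : ZMod p) = 0 := by
  by_cases h : (2 : ZMod p) = 0
  · right; exact h
  · left
    have h1 : (2 : (ZMod p)[X]) ≠ 0 := by
      have : (C (2 : ZMod p) : (ZMod p)[X]) ≠ 0 := by rwa [Ne, C_eq_zero]
      rwa [map_ofNat] at this
    have hX1 : (1 + X : (ZMod p)[X]) ≠ 0 := by
      have := X_add_C_ne_zero (1 : ZMod p)
      rwa [C_1, add_comm] at this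
    exact mul_ne_zero (mul_ne_zero h1 hX1) X_ne_zero

theorem Lop_red_Sz (h5 : 5 ≤ p) : Lop (red p (Sz p)) = 0 := by
  obtain ⟨m, hm⟩ : ∃ m, p = m + 1 := ⟨p - 1, by omega⟩
  have h := congrArg (Polynomial.map (Int.castRingHom (ZMod p))) (tele_sum m)
  rw [← hm] at h
  have hp0 : ((m : (ZMod p)[X]) + 1) = 0 := by
    have : ((m + 1 : ℕ) : (ZMod p)[X]) = 0 := by
      rw [← hm]; exact CharP.cast_eq_zero _ p
    exact_mod_cast this
  simp only [Polynomial.map_mul, Polynomial.map_add, Polynomial.map_pow, Polynomial.map_X,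
    Polynomial.map_one, Polynomial.map_ofNat, Polynomial.map_natCast, map_Lop, hp0] at h
  have h' : 2 * (1 + X) * X * Lop (red p (Sz p)) = 0 := by
    rw [h]; ring
  rcases X_mul_ne (p := p) with h2 | h2
  · exact (mul_eq_zero.mp h').resolve_left h2
  · exact absurd h2 (two_ne h5)

theorem cast_ne_zero_of_lt {m : ℕ} (h1 : 1 ≤ m) (h2 : m < p) : (m : ZMod p) ≠ 0 := by
  intro h
  rw [ZMod.natCast_eq_zero_iff] at h
  have := Nat.le_of_dvd (by omega) h
  omega

theorem four_ne (h5 : 5 ≤ p) : (4 : ZMod p) ≠ 0 := by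
  have : (4 : ZMod p) = 2 * 2 := by norm_num
  rw [this]; exact mul_ne_zero (two_ne h5) (two_ne h5)

/-- a solution vanishing at `0` is divisible by `X^p` -/
theorem X_pow_dvd (h5 : 5 ≤ p) {Y : (ZMod p)[X]} (hL : Lop Y = 0) (h0 : Y.coeff 0 = 0) :
    X ^ p ∣ Y := by
  have hX : (X - C (0 : ZMod p)) = X := by simp
  have key := dvd_range (0 : ZMod p) (4 * (1 + X) ^ 2 * (1 + 4 * X))
    (12 * (1 + X) ^ 2 * (1 + 4 * X) + 36 * X * (1 + X) * (1 + 2 * X))
    (4 + 84 * X + 267 * X ^ 2 + 196 * X ^ 3) (6 + 51 * X + 54 * X ^ 2) Y 1 p (by omega)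
    (by rw [hX, ← hL]; unfold Lop; ring)
    (by rw [hX, pow_one]; exact X_dvd_iff.mpr h0)
    (by
      intro m h1 h2
      have hm := cast_ne_zero_of_lt (p := p) h1 h2
      have : (4 : ZMod p) * (m : ZMod p) ^ 3 ≠ 0 := mul_ne_zero (four_ne h5) (pow_ne_zero _ hm)
      convert this using 1
      simp only [eval_mul, eval_add, eval_pow, eval_X, eval_one, eval_ofNat]
      ring)
  rwa [hX] at key

/-- a solution vanishing at `-1` is divisible by `(1+X)^h` -/
theorem one_add_X_pow_dvd (h5 : 5 ≤ p) {Y : (ZMod p)[X]} (hL : Lop Y = 0)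
    (h0 : Y.eval (-1) = 0) : (1 + X) ^ (hh p) ∣ Y := by
  have hX : (X - C (-1 : ZMod p)) = 1 + X := by simp [add_comm]
  have h2h := two_hh (p := p) h5
  have key := dvd_range (-1 : ZMod p) (4 * X ^ 2 * (1 + 4 * X))
    (12 * X * (1 + X) * (1 + 4 * X) + 36 * X ^ 2 * (1 + 2 * X))
    (4 + 84 * X + 267 * X ^ 2 + 196 * X ^ 3) (6 + 51 * X + 54 * X ^ 2) Y 1 (hh p) (by omega)
    (by rw [hX, ← hL]; unfold Lop; ring)
    (by rw [pow_one]; exact dvd_iff_isRoot.mpr h0)
    (by
      intro m h1 h2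
      have hm := cast_ne_zero_of_lt (p := p) h1 (by omega)
      have hm1 := cast_ne_zero_of_lt (p := p) (m := 2 * m + 1) (by omega) (by omega)
      have hm2 := cast_ne_zero_of_lt (p := p) (m := 2 * m - 1) (by omega) (by omega)
      have e2 : ((2 * m - 1 : ℕ) : ZMod p) = 2 * (m : ZMod p) - 1 := by
        rw [Nat.cast_sub (by omega)]; push_cast; ring
      rw [e2] at hm2
      push_cast at hm1
      have : (-3 : ZMod p) * ((m : ZMod p) * ((2 * (m : ZMod p) + 1) * (2 * (m : ZMod p) - 1))) ≠ 0 :=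
        mul_ne_zero (neg_ne_zero.mpr (three_ne h5)) (mul_ne_zero hm (mul_ne_zero hm1 hm2))
      convert this using 1
      simp only [eval_mul, eval_add, eval_pow, eval_X, eval_one, eval_ofNat]
      ring)
  rwa [hX] at key

theorem natDegree_one_add_X_pow (k : ℕ) : ((1 + X : (ZMod p)[X]) ^ k).natDegree = k := by
  have : (1 + X : (ZMod p)[X]) = X + C 1 := by rw [C_1, add_comm]
  rw [this, natDegree_pow, natDegree_X_add_C, mul_one]

theorem natDegree_Wp (h5 : 5 ≤ p) : (Wp p).natDegree ≤ 3 * hh p := by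
  unfold Wp
  apply natDegree_sum_le_of_forall_le
  intro k hk
  have hk' := mem_range.mp hk
  have h1 := nn_lt_hh (p := p) h5
  calc (C (bb p k) * ff p k).natDegree ≤ (ff p k).natDegree := natDegree_C_mul_le _ _
    _ ≤ (X ^ (2 * k) : (ZMod p)[X]).natDegree + ((1 + X : (ZMod p)[X]) ^ (3 * (hh p - k))).natDegree :=
      natDegree_mul_le
    _ = 2 * k + 3 * (hh p - k) := by rw [natDegree_X_pow, natDegree_one_add_X_pow]
    _ ≤ _ := by omega

theorem Wp_coeff_zero : (Wp p).coeff 0 = 1 := by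
  unfold Wp
  rw [coeff_zero_eq_eval_zero, eval_finset_sum, Finset.sum_eq_single 0]
  · simp [ff, bb_zero]
  · intro k _ hk
    simp [ff, hk]
  · intro h
    simp at h

theorem Wp_eval_neg_one (h5 : 5 ≤ p) : (Wp p).eval (-1) = 0 := by
  unfold Wp
  rw [eval_finset_sum]
  apply Finset.sum_eq_zero
  intro k hk
  have hk' := mem_range.mp hk
  have h1 := nn_lt_hh (p := p) h5
  have : 3 * (hh p - k) ≠ 0 := by omega
  simp [ff, this]

theorem S_eq_W (h5 : 5 ≤ p) : red p (Sz p) = Wp p := by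
  by_contra hne
  set Y := red p (Sz p) - Wp p with hY
  have hY0 : Y ≠ 0 := sub_ne_zero.mpr hne
  have hL : Lop Y = 0 := by rw [hY, Lop_sub, Lop_red_Sz h5, Lop_Wp h5, sub_zero]
  have hc : Y.coeff 0 = 0 := by
    rw [hY, coeff_sub, Wp_coeff_zero, coeff_map, Sz_coeff_zero h5]; simp
  have he : Y.eval (-1) = 0 := by
    rw [hY, eval_sub, Wp_eval_neg_one h5, sub_zero]
    have : (-1 : ZMod p) = (Int.castRingHom (ZMod p)) (-1) := by simp
    rw [this, eval_map, eval₂_at_apply, Sz_eval_neg_one]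
    simp
  have d1 := X_pow_dvd h5 hL hc
  have d2 := one_add_X_pow_dvd h5 hL he
  have hcop : IsCoprime (X ^ p : (ZMod p)[X]) ((1 + X) ^ (hh p)) := by
    apply IsCoprime.pow
    exact ⟨-1, 1, by ring⟩
  have d3 := hcop.mul_dvd d1 d2
  have hdeg := natDegree_le_of_dvd d3 hY0
  have hX1 : ((1 + X : (ZMod p)[X]) ^ (hh p)) ≠ 0 := by
    have := X_add_C_ne_zero (1 : ZMod p)
    rw [C_1, add_comm] at this
    exact pow_ne_zero _ this
  rw [natDegree_mul (pow_ne_zero _ X_ne_zero) hX1, natDegree_X_pow, natDegree_one_add_X_pow] at hdeg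
  have hYdeg : Y.natDegree ≤ 3 * hh p := by
    rw [hY]
    exact (natDegree_sub_le _ _).trans (max_le (natDegree_red_Sz h5) (natDegree_Wp h5))
  have := two_hh (p := p) h5
  omega

end

end Pool.Agent.helper60.DK
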