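import Pool.Agent.helper60.DK.Spec

/-!
# Row dk:QUA: the singular point `-1/4`
-/

namespace Pool.Agent.helper60.DK

open Polynomial Finset

theorem QUA : QUA_stmt := by
  intro p hp h7 t ht h0 h1
  have hpp : Prime (p : ℤ) := Nat.prime_iff_prime_int.mp hp.out
  have hJ := eval_dvd_of_coeff_dvd (fun n => Jop_Sz_dvd (p := p) h7 n) t
  rw [Jop_eval] at hJ
  set A := (Sz p).eval t with hA
  set A1 := (derivative (Sz p)).eval t with hA1
  set A2 := (derivative (derivative (Sz p))).eval t with hA2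
  obtain ⟨a, ha⟩ := h0
  obtain ⟨j, hj⟩ := hJ
  obtain ⟨e, he⟩ := ht
  have hfin : (p : ℤ) ^ 2 ∣ (9 : ℤ) * (A1 * A) := by
    refine ⟨16 * j
      - 16 * (4 * t ^ 2 * (1 + t) ^ 2 * e * (2 * A * A2 - A1 ^ 2))
      - 16 * ((12 * t + 51 * t ^ 2 + 36 * t ^ 3) * a ^ 2)
      - e * (320 * t ^ 3 + 496 * t ^ 2 + 164 * t - 9) * (A * A1), ?_⟩
    have ha2 : A ^ 2 = (p : ℤ) ^ 2 * a ^ 2 := by rw [ha]; ring
    linear_combination 16 * hj - (16 * (4 * t ^ 2 * (1 + t) ^ 2 * (2 * A * A2 - A1 ^ 2))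
      + (320 * t ^ 3 + 496 * t ^ 2 + 164 * t - 9) * (A * A1)) * he
      - 16 * (12 * t + 51 * t ^ 2 + 36 * t ^ 3) * ha2
  have h9 : ¬ (p : ℤ) ∣ 9 := by
    intro h
    have h3 : (p : ℤ) ∣ 3 ^ 2 := by simpa using h
    have := Int.le_of_dvd (by norm_num) (hpp.dvd_of_dvd_pow h3)
    omega
  exact hpp.pow_dvd_of_dvd_mul_left 2 h1 (hpp.pow_dvd_of_dvd_mul_left 2 h9 hfin)

end Pool.Agent.helper60.DK
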