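import Pool.Agent.helper60.DK.Basic

/-!
# Differential and contiguity relations of `D_n`
-/

namespace Pool.Agent.helper60.DK

open Polynomial Finset

theorem coeff_theta (f : ℤ[X]) (k : ℕ) : (X * derivative f).coeff k = (k : ℤ) * f.coeff k := by
  cases k with
  | zero => simp
  | succ k => rw [coeff_X_mul, coeff_derivative]; push_cast; ring

theorem rel_two (n : ℕ) :
    2 * X * (1 + X) * derivative (Dz n)
      = ((n : ℤ[X]) + 1) * (Dz (n + 1) - (1 + 2 * X) * Dz n) := by
  have e1 : 2 * X * (1 + X) * derivative (Dz n)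
      = C 2 * (X * derivative (Dz n) + X * (X * derivative (Dz n))) := by
    rw [show (C 2 : ℤ[X]) = 2 from rfl]; ring
  have e2 : ((n : ℤ[X]) + 1) * (Dz (n + 1) - (1 + 2 * X) * Dz n)
      = C ((n : ℤ) + 1) * (Dz (n + 1) - Dz n - C 2 * (X * Dz n)) := by
    rw [show (C 2 : ℤ[X]) = 2 from rfl, C_add, C_1, show (C (n : ℤ) : ℤ[X]) = (n : ℤ[X]) by simp]
    ring
  rw [e1, e2]
  ext k
  cases k with
  | zero =>
    rw [coeff_C_mul, coeff_C_mul, coeff_add, coeff_sub, coeff_sub, coeff_C_mul]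
    simp [coeff_theta, coeff_Dz', dc_zero]
  | succ k =>
    rw [coeff_C_mul, coeff_C_mul, coeff_add, coeff_sub, coeff_sub, coeff_C_mul, coeff_theta,
      coeff_X_mul, coeff_theta, coeff_X_mul, coeff_Dz', coeff_Dz', coeff_Dz']
    have a1 := dc_succ n k
    have a2 := dc_succ (n + 1) k
    have a3 := dc_succ_left n k
    push_cast at a1 a2 a3 ⊢
    have hne : ((k : ℤ) + 1) ^ 2 ≠ 0 := by positivity
    apply mul_right_cancel₀ hne
    linear_combination (2 * ((k : ℤ) + 1) + ((n : ℤ) + 1)) * a1 - ((n : ℤ) + 1) * a2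
      - ((n : ℤ) + 1) * ((n : ℤ) + 1 + k + 1) * a3

theorem rel_one (n : ℕ) :
    2 * X * (1 + X) * derivative (Dz (n + 1))
      = ((n : ℤ[X]) + 1) * ((1 + 2 * X) * Dz (n + 1) - Dz n) := by
  have e1 : 2 * X * (1 + X) * derivative (Dz (n + 1))
      = C 2 * (X * derivative (Dz (n + 1)) + X * (X * derivative (Dz (n + 1)))) := by
    rw [show (C 2 : ℤ[X]) = 2 from rfl]; ring
  have e2 : ((n : ℤ[X]) + 1) * ((1 + 2 * X) * Dz (n + 1) - Dz n)
      = C ((n : ℤ) + 1) * (Dz (n + 1) + C 2 * (X * Dz (n + 1)) - Dz n) := by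
    rw [show (C 2 : ℤ[X]) = 2 from rfl, C_add, C_1, show (C (n : ℤ) : ℤ[X]) = (n : ℤ[X]) by simp]
    ring
  rw [e1, e2]
  ext k
  cases k with
  | zero =>
    rw [coeff_C_mul, coeff_C_mul, coeff_add, coeff_sub, coeff_add, coeff_C_mul]
    simp [coeff_theta, coeff_Dz', dc_zero]
  | succ k =>
    rw [coeff_C_mul, coeff_C_mul, coeff_add, coeff_sub, coeff_add, coeff_C_mul, coeff_theta,
      coeff_X_mul, coeff_theta, coeff_X_mul, coeff_Dz', coeff_Dz', coeff_Dz']
    have a1 := dc_succ n k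
    have a2 := dc_succ (n + 1) k
    have a3 := dc_succ_left n k
    push_cast at a1 a2 a3 ⊢
    have hne : ((k : ℤ) + 1) ^ 2 ≠ 0 := by positivity
    apply mul_right_cancel₀ hne
    linear_combination ((n : ℤ) + 1) * a1 + (2 * ((k : ℤ) + 1) - ((n : ℤ) + 1)) * a2
      - ((n : ℤ) + 1) * ((n : ℤ) - k) * a3

theorem ode_two (n : ℕ) :
    X * (1 + X) * derivative (derivative (Dz n)) + (1 + 2 * X) * derivative (Dz n)
      = (n : ℤ[X]) * ((n : ℤ[X]) + 1) * Dz n := by
  have e1 : X * (1 + X) * derivative (derivative (Dz n)) + (1 + 2 * X) * derivative (Dz n)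
      = X * derivative (derivative (Dz n)) + X * (X * derivative (derivative (Dz n)))
        + derivative (Dz n) + C 2 * (X * derivative (Dz n)) := by
    rw [show (C 2 : ℤ[X]) = 2 from rfl]; ring
  have e2 : (n : ℤ[X]) * ((n : ℤ[X]) + 1) * Dz n = C ((n : ℤ) * ((n : ℤ) + 1)) * Dz n := by
    rw [C_mul, C_add, C_1, show (C (n : ℤ) : ℤ[X]) = (n : ℤ[X]) by simp]
  rw [e1, e2]
  ext k
  have a1 := dc_succ n k
  have t2 : (X * (X * derivative (derivative (Dz n)))).coeff k
      = ((k : ℤ) * ((k : ℤ) - 1)) * dc n k := by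
    cases k with
    | zero => simp
    | succ k =>
      rw [coeff_X_mul, coeff_theta, coeff_derivative, coeff_Dz']; push_cast; ring
  rw [coeff_C_mul, coeff_add, coeff_add, coeff_add, coeff_C_mul, coeff_theta, coeff_theta,
    coeff_derivative, coeff_Dz', coeff_Dz', t2]
  linear_combination a1

end Pool.Agent.helper60.DK
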