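import Pool.Agent.helper60.DK.First

/-!
# Vanishing modulo `p` implies vanishing modulo `p^2`
-/

namespace Pool.Agent.helper60.DK

open Polynomial Finset

section
variable {p : ℕ} [hp : Fact p.Prime]

theorem red_Sz_eval_neg_one : (red p (Sz p)).eval (-1) = 0 := by
  have : (-1 : ZMod p) = (Int.castRingHom (ZMod p)) (-1) := by simp
  rw [this, eval_map, eval₂_at_apply, Sz_eval_neg_one]
  simp

theorem red_Sz_ne_zero (h5 : 5 ≤ p) : red p (Sz p) ≠ 0 := by
  intro h
  have : (red p (Sz p)).coeff 0 = 1 := by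
    rw [coeff_map, Sz_coeff_zero h5]; simp
  rw [h] at this
  simp at this

/-- At a regular point, the second derivative does not vanish at a double zero. -/
theorem second_ne (h5 : 5 ≤ p) (x : ZMod p) (hx : x * (1 + x) * (1 + 4 * x) ≠ 0)
    (h0 : (red p (Sz p)).eval x = 0) (h1 : (derivative (red p (Sz p))).eval x = 0) :
    (derivative (derivative (red p (Sz p)))).eval x ≠ 0 := by
  intro h2
  set S := red p (Sz p) with hS
  have hL : Lop S = 0 := Lop_red_Sz h5
  -- triple zero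
  obtain ⟨A, hA⟩ := dvd_iff_isRoot.mpr h0
  have hdA : derivative S = A + (X - C x) * derivative A := by
    rw [hA, derivative_mul]; simp
  have hA0 : A.eval x = 0 := by
    have := congrArg (eval x) hdA
    rw [h1] at this
    simpa using this.symm
  obtain ⟨B, hB⟩ := dvd_iff_isRoot.mpr hA0
  have hSB : S = (X - C x) ^ 2 * B := by rw [hA, hB]; ring
  have hddB : derivative (derivative S)
      = 2 * B + 4 * (X - C x) * derivative B + (X - C x) ^ 2 * derivative (derivative B) := by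
    have q1 : derivative (X - C x) = 1 := by simp
    rw [hdA, hB]
    simp only [derivative_mul, derivative_add, q1, derivative_one]
    ring
  have hB0 : B.eval x = 0 := by
    have := congrArg (eval x) hddB
    rw [h2] at this
    simp only [eval_add, eval_mul, eval_ofNat, eval_sub, eval_X, eval_C, sub_self, mul_zero,
      zero_mul, add_zero, eval_pow] at this
    have h2' := two_ne (p := p) h5
    have h3 : (2 : ZMod p) * eval x B = 0 := by
      have := this.symm
      simpa using this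
    exact (mul_eq_zero.mp h3).resolve_left h2'
  obtain ⟨D, hD⟩ := dvd_iff_isRoot.mpr hB0
  have h3 : (X - C x) ^ 3 ∣ S := ⟨D, by rw [hSB, hD]; ring⟩
  have hx0 : x ≠ 0 := by rintro rfl; simp at hx
  have hx1 : 1 + x ≠ 0 := by intro h; rw [h] at hx; simp at hx
  have hx4 : 1 + 4 * x ≠ 0 := by intro h; rw [h] at hx; simp at hx
  have key := dvd_range x (4 * X ^ 2 * (1 + X) ^ 2 * (1 + 4 * X))
    ((12 * X * (1 + X) ^ 2 * (1 + 4 * X) + 36 * X ^ 2 * (1 + X) * (1 + 2 * X)) * (X - C x))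
    ((4 + 84 * X + 267 * X ^ 2 + 196 * X ^ 3) * (X - C x) ^ 2)
    ((6 + 51 * X + 54 * X ^ 2) * (X - C x) ^ 2) S 3 p (by omega)
    (by
      have := congrArg (fun f => (X - C x) ^ 2 * f) hL
      simp only [mul_zero] at this
      rw [← this]; unfold Lop; ring)
    h3
    (by
      intro m hm1 hm2
      have c0 := cast_ne_zero_of_lt (p := p) (m := m) (by omega) (by omega)
      have c1 := cast_ne_zero_of_lt (p := p) (m := m - 1) (by omega) (by omega)
      have c2 := cast_ne_zero_of_lt (p := p) (m := m - 2) (by omega) (by omega)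
      rw [Nat.cast_sub (by omega)] at c1 c2
      push_cast at c1 c2
      have h4 := four_ne (p := p) h5
      have : (4 * x ^ 2 * (1 + x) ^ 2 * (1 + 4 * x)) * ((m : ZMod p) * (m - 1) * (m - 2)) ≠ 0 :=
        mul_ne_zero (mul_ne_zero (mul_ne_zero (mul_ne_zero h4 (pow_ne_zero _ hx0))
          (pow_ne_zero _ hx1)) hx4) (mul_ne_zero (mul_ne_zero c0 c1) c2)
      convert this using 1
      simp only [eval_mul, eval_add, eval_pow, eval_X, eval_one, eval_ofNat, eval_sub, eval_C]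
      ring)
  have hd2 := one_add_X_pow_dvd h5 hL red_Sz_eval_neg_one
  have hcop : IsCoprime ((X - C x) ^ p : (ZMod p)[X]) ((1 + X) ^ (hh p)) := by
    apply IsCoprime.pow
    refine ⟨-C ((1 + x)⁻¹), C ((1 + x)⁻¹), ?_⟩
    have : C ((1 + x)⁻¹) * C (1 + x) = 1 := by
      rw [← C_mul, inv_mul_cancel₀ hx1, C_1]
    rw [C_add, C_1] at this
    linear_combination this
  have d3 := hcop.mul_dvd key hd2
  have hdeg := natDegree_le_of_dvd d3 (red_Sz_ne_zero h5)
  have hX1 : ((1 + X : (ZMod p)[X]) ^ (hh p)) ≠ 0 := by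
    have := X_add_C_ne_zero (1 : ZMod p)
    rw [C_1, add_comm] at this
    exact pow_ne_zero _ this
  rw [natDegree_mul (pow_ne_zero _ (X_sub_C_ne_zero x)) hX1, natDegree_pow, natDegree_X_sub_C,
    natDegree_one_add_X_pow] at hdeg
  have h1 := natDegree_red_Sz (p := p) h5
  rw [← hS] at h1
  have := two_hh (p := p) h5
  omega

theorem eval_dvd_of_coeff_dvd {f : ℤ[X]} {d : ℤ} (h : ∀ n, d ∣ f.coeff n) (t : ℤ) :
    d ∣ f.eval t := by
  rw [eval_eq_sum_range]
  exact Finset.dvd_sum fun i _ => Dvd.dvd.mul_right (h i) _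

theorem red_eval (f : ℤ[X]) (t : ℤ) : (red p f).eval (t : ZMod p) = ((f.eval t : ℤ) : ZMod p) := by
  have : (t : ZMod p) = (Int.castRingHom (ZMod p)) t := by simp
  rw [this, red, eval_map, eval₂_at_apply]; simp

theorem int_dvd_iff (z : ℤ) : ((z : ℤ) : ZMod p) = 0 ↔ (p : ℤ) ∣ z :=
  ZMod.intCast_zmod_eq_zero_iff_dvd z p

/-- evaluation of the first integral at an integer -/
theorem Jop_eval (t : ℤ) (y : ℤ[X]) :
    (Jop y).eval t = 4 * t ^ 2 * (1 + t) ^ 2 * (1 + 4 * t)
        * (2 * y.eval t * (derivative (derivative y)).eval t - ((derivative y).eval t) ^ 2)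
      + 8 * t * (1 + t) * (1 + 8 * t + 10 * t ^ 2) * y.eval t * (derivative y).eval t
      + (12 * t + 51 * t ^ 2 + 36 * t ^ 3) * (y.eval t) ^ 2 := by
  unfold Jop
  simp only [eval_mul, eval_add, eval_pow, eval_X, eval_one, eval_ofNat, eval_sub]

/-- Regular points: `p ∣ S(t)` implies `p^2 ∣ S(t)`. -/
theorem super_regular (h7 : 7 ≤ p) (t : ℤ) (ht : ¬ (p : ℤ) ∣ t * (1 + t) * (1 + 4 * t))
    (h0 : (p : ℤ) ∣ (Sz p).eval t) : (p : ℤ) ^ 2 ∣ (Sz p).eval t := by
  have h5 : 5 ≤ p := by omega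
  have hpp : Prime (p : ℤ) := Nat.prime_iff_prime_int.mp hp.out
  have hJ := eval_dvd_of_coeff_dvd (fun n => Jop_Sz_dvd (p := p) h7 n) t
  rw [Jop_eval] at hJ
  set A := (Sz p).eval t with hA
  set A1 := (derivative (Sz p)).eval t with hA1
  set A2 := (derivative (derivative (Sz p))).eval t with hA2
  have h4 : ¬ (p : ℤ) ∣ 4 := by
    intro h
    have := Int.le_of_dvd (by norm_num) h
    omega
  have hE : ¬ (p : ℤ) ∣ 4 * t ^ 2 * (1 + t) ^ 2 * (1 + 4 * t) := by
    intro h
    rcases hpp.dvd_or_dvd h with h | h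
    · rcases hpp.dvd_or_dvd h with h | h
      · rcases hpp.dvd_or_dvd h with h | h
        · exact h4 h
        · exact ht ((hpp.dvd_of_dvd_pow h).mul_right _ |>.mul_right _)
      · exact ht (Dvd.dvd.mul_right (Dvd.dvd.mul_left (hpp.dvd_of_dvd_pow h) _) _)
    · exact ht (Dvd.dvd.mul_left h _)
  -- first derivative
  have hA1d : (p : ℤ) ∣ A1 := by
    have h1 : (p : ℤ) ∣ 4 * t ^ 2 * (1 + t) ^ 2 * (1 + 4 * t) * A1 ^ 2 := by
      obtain ⟨a, ha⟩ := h0
      obtain ⟨j, hj⟩ := hJ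
      refine ⟨-(p * j) + 4 * t ^ 2 * (1 + t) ^ 2 * (1 + 4 * t) * (2 * a * A2)
        + 8 * t * (1 + t) * (1 + 8 * t + 10 * t ^ 2) * a * A1
        + (12 * t + 51 * t ^ 2 + 36 * t ^ 3) * (a * A), ?_⟩
      rw [ha] at hj ⊢
      linear_combination -hj
    exact hpp.dvd_of_dvd_pow ((hpp.dvd_or_dvd h1).resolve_left hE)
  have hxx : ((t : ℤ) : ZMod p) * (1 + (t : ZMod p)) * (1 + 4 * (t : ZMod p)) ≠ 0 := by
    intro h
    apply ht
    rw [← int_dvd_iff]
    push_cast
    exact h
  have hA2d : ¬ (p : ℤ) ∣ A2 := by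
    have h := second_ne h5 (t : ZMod p) hxx
      (by rw [red_eval, int_dvd_iff]; exact h0)
      (by rw [red, derivative_map]; change (red p (derivative (Sz p))).eval _ = 0
          rw [red_eval, int_dvd_iff]; exact hA1d)
    rw [red, derivative_map, derivative_map] at h
    change (red p (derivative (derivative (Sz p)))).eval _ ≠ 0 at h
    rw [red_eval, Ne, int_dvd_iff] at h
    exact h
  obtain ⟨a, ha⟩ := h0
  obtain ⟨b, hb⟩ := hA1d
  obtain ⟨j, hj⟩ := hJ
  have hfin : (p : ℤ) ^ 2 ∣ (4 * t ^ 2 * (1 + t) ^ 2 * (1 + 4 * t)) * (2 * (A2 * A)) := by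
    refine ⟨j + 4 * t ^ 2 * (1 + t) ^ 2 * (1 + 4 * t) * b ^ 2
      - 8 * t * (1 + t) * (1 + 8 * t + 10 * t ^ 2) * a * b
      - (12 * t + 51 * t ^ 2 + 36 * t ^ 3) * a ^ 2, ?_⟩
    rw [ha, hb] at hj
    rw [ha]
    linear_combination hj
  have h1 := hpp.pow_dvd_of_dvd_mul_left 2 hE hfin
  have h2 : ¬ (p : ℤ) ∣ 2 := by
    intro h
    have := Int.le_of_dvd (by norm_num) h
    omega
  have h3 := hpp.pow_dvd_of_dvd_mul_left 2 h2 h1
  exact hpp.pow_dvd_of_dvd_mul_left 2 hA2d h3

end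

end Pool.Agent.helper60.DK
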