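import Pool.Agent.helper60.DK.Clausen
import Pool.Agent.helper60.DK.Super

/-!
# Rows dk:* (MP_fb2c2a_nt, inert half of (a), (b), (c))

Everything imported here is proved (no sorry).  Every row is a `Prop` below; please prove
`theorem Pool.Agent.helper60.DK.<ROW> : <ROW>_stmt` in `Pool/Agent/<seat>/DK/<ROW>.lean`
(import this file), land it, set the lock note to DONE and send me one line.
No `convert` / `congr!`, no `native_decide`, only the three standard axioms.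

Library you can use (all in this folder):
`Dz n : ℤ[X]` (`coeff_Dz'`, `dc n k`, `dc_zero`, `dc_of_lt`, `dc_succ`), `ode_two`, `rel_one`, `rel_two`,
`Cn n : ℤ[X]`, `coeff_Cn`, `cc n k`, `clausen n : (Cn n).comp (X*(1+X)) = Dz n ^ 2`, `comp_ders`,
`nn p = p/3`, `hh p = (p-1)/2`, `two_hh`, `two_hK`, `nine_nK : 9*n*(n+1) = -2` in `ZMod p`,
`Sz p = ∑ k < p, (-1)^k * Dz k ^ 3`, `red p f = f.map (Int.castRingHom (ZMod p))`,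
`S_eq_W : red p (Sz p) = Wp p`, `Wp p = ∑ k ≤ n, C (bb p k) * ff p k`, `cast_ne_zero_of_lt`,
`dvd_range` (file Loc: local uniqueness for linear ODEs), `Jop_eval`, `Jop_Sz_dvd`, `super_regular`.
-/

namespace Pool.Agent.helper60.DK

open Polynomial Finset

/-- ROW dk:PAR (parity).  Both sides `Y` solve `X(1+X)Y'' + (1+2X)Y' = n(n+1) Y` (`ode_two`, and
`(f.comp (-1-X))' = -(f'.comp (-1-X))`); comparing coefficients
`(k+1)^2 y_{k+1} = (n-k)(n+k+1) y_k`, so the difference of the two sides has all coefficients `0`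
once coefficient `0` vanishes: `D_n(-1) = (-1)^n` is `Dz_eval_neg_one` (ModP.lean). -/
def PAR_stmt : Prop := ∀ n : ℕ, (Dz n).comp (-1 - X) = (-1) ^ n * Dz n

/-- the operator of the cubic identity -/
noncomputable def Eop {R : Type*} [CommRing R] (y : R[X]) : R[X] :=
  (X ^ 2 - 1) * (4 - X ^ 2) * derivative (derivative y) + (10 * X - 4 * X ^ 3) * derivative y
    - 2 * (X ^ 2 - 1) * y

/-- first cubic polynomial, `A = (X-1)(X+2)^2` -/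
noncomputable def M1 (p : ℕ) [Fact p.Prime] : (ZMod p)[X] :=
  ∑ j ∈ range (nn p + 1), C (((dc (nn p) j : ℤ) : ZMod p) * (-1 / 2) ^ j)
    * (((X - 1) * (X + 2) ^ 2) ^ j * X ^ (p - 1 - 3 * j))

/-- second cubic polynomial, `B = (X-1)^2 (X+2)` -/
noncomputable def M2 (p : ℕ) [Fact p.Prime] : (ZMod p)[X] :=
  ∑ j ∈ range (nn p + 1), C (((dc (nn p) j : ℤ) : ZMod p) * (-1 / 4) ^ j)
    * ((X - 1) ^ 2 * (X + 2)) ^ j

/-- ROW dk:ME2.  With `y = C(-1/4) * B`, `B = (X-1)^2(X+2)`: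
`Eop (y^j) = -(X^2-1) * (9 j^2 y^(j-1) + (3j+1)(3j+2) y^j)` (any ring with 1/4; case j = 0 alone:
`Eop 1 = -2(X^2-1)`).  With `d_j = dc n j`, `dc_succ` and `nine_nK` give
`9 (j+1)^2 d_{j+1} = -(3j+1)(3j+2) d_j` mod p, so the sum telescopes (`d_{n+1} = 0`).
Proof of the formula for j = i+1: `y' = -3/4 (X^2-1)`, `B' = 3(X^2-1)`, use `B'^2 (4-X^2) = 9 (X^2-1) B
 (X+1)... ` i.e. `(X^2-1)(4-X^2) = (X+1)(2-X) B/(X-1)`; all is `ring` after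
`derivative_pow`/`pow_succ` with `C (1/4)` a letter `q` with `4*q = 1`. -/
def ME2_stmt : Prop := ∀ (p : ℕ) [Fact p.Prime], 5 ≤ p → Eop (M2 p) = 0

/-- ROW dk:ME1.  With `z = C(-1/2) * A`, `A = (X-1)(X+2)^2` and `e + 1 + 3 j = 0` in `ZMod p`
(`e = p-1-3j`):
`X^2 * Eop (z^j X^e) = -(4-X^2) * (9 j^2 z^(j-1) X^(e+3) + (3j+1)(3j+2) z^j X^e)`,
then the sum telescopes as in dk:ME2 (`e_j + 3 ... : X^{e_{j+1}+3} = X^{e_j}`), and `X^2` cancels.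
The case j = 0 separately (`X^2 Eop (X^(p-1)) = -2(4-X^2) X^(p-1)`, exponents as elements of
`ZMod p`: (X^e)' = e X^(e-1)). -/
def ME1_stmt : Prop := ∀ (p : ℕ) [Fact p.Prime], 5 ≤ p → Eop (M1 p) = 0

/-- ROW dk:ME (uses ME1_stmt and ME2_stmt as hypotheses: state it as
`theorem ME (h1 : ME1_stmt) (h2 : ME2_stmt) : ME_stmt`).
`Y = M1 - M2`: `Y(1) = 0`, `Eop Y = 0`, `dvd_range` with `a = 1`, `b3 = 0`,
`b2 = (X+1)(4-X^2)` (value 6 at 1), `b1 = 10X-4X^3` (value 6), `b0 = -2(X^2-1)(X-1)`, indicial value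
`6 m^2 ≠ 0` for `1 ≤ m < p`, gives `(X-1)^p ∣ Y`, degree `≤ p-1` (3n ≤ p-1) so `Y = 0`; then apply
`aeval s` (F is a `ZMod p`-algebra, `ZMod.algebra F p`). -/
def ME_stmt : Prop := ∀ (p : ℕ) [Fact p.Prime] (F : Type) [Field F] [CharP F p], 5 ≤ p →
  ∀ s : F, s ≠ 0 →
    s ^ (p - 1) * aeval (-((s - 1) * (s + 2) ^ 2) / (2 * s ^ 3)) (Dz (nn p))
      = aeval (-((s - 1) ^ 2 * (s + 2)) / 4) (Dz (nn p))

/-- ROW dk:WF.  From `S_eq_W`: `S(x) = (1+x)^{3h} ∑ cc n k (-27/16)^k (x^2/(1+x)^3)^k`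
(`n < h`, `ff p k = X^{2k} (1+X)^{3(h-k)}`), and with `λ = y(1+y)` the sum is
`Cn(n)(λ) = Dz(n)(y)^2` (`clausen`). -/
def WF_stmt : Prop := ∀ (p : ℕ) [Fact p.Prime] (F : Type) [Field F] [CharP F p], 5 ≤ p →
  ∀ x y : F, 1 + x ≠ 0 → 16 * (1 + x) ^ 3 * (y * (1 + y)) = -27 * x ^ 2 →
    aeval x (Sz p) = (1 + x) ^ (3 * hh p) * (aeval y (Dz (nn p))) ^ 2

/-- ROW dk:HALF.  From `rel_one`, `rel_two` at `x = -1/2`: `(k+1) D_{k+1} = -k D_{k-1}` (the three term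
relation is the difference of `rel_two k` and `rel_one (k-1)`), `D_1(-1/2) = 0`, `D_0 = 1`; so
`D_n(-1/2) = 0` for odd `n` and `≠ 0` for even `n < p`; and
`2x(1+x) D_n' = n((1+2x) D_n - D_{n-1})` gives `D_n'(-1/2) = 2 n D_{n-1}(-1/2) ≠ 0` for odd `n < p`. -/
def HALF_stmt : Prop := ∀ (p : ℕ) [Fact p.Prime] (F : Type) [Field F] [CharP F p], 5 ≤ p →
  ∀ n : ℕ, n % 2 = 1 → n < p →
    aeval (-1 / 2 : F) (Dz n) = 0 ∧ aeval (-1 / 2 : F) (derivative (Dz n)) ≠ 0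

/-- ROW dk:W14 (state as `theorem W14 (h : HALF_stmt) : W14_stmt`).  `n = nn p` is odd when
`p % 3 = 2` (`3n+2 = p` odd).
`X(1+X) W' = ∑ bb_k ((2ν_k-1)(1+X) - 3ν_k X) ff_k` (`ff_ld`), at `x = -1/4`:
`(1+x) = 3/4`, `(-27/16) x^2/(1+x)^3 = -4` ... i.e. `bb_k ff_k(x) = cc_k (-1/4)^k (3/4)^{3h}`,
`2ν_k - 1 = 2k`, the bracket is `2k*(3/4) + 3 (k+1/2)/4 = (9/4) k + 3/8`; hence
`-(3/16) W'(-1/4) = (3/4)^{3h} ((9/4) * (-1/4) Cn'(-1/4) + (3/8) Cn(-1/4))`, `Cn(-1/4) = D_n(-1/2)^2 = 0`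
(`clausen`) and differentiating `clausen` twice at `-1/2` (`comp_ders`):
`2 Cn'(-1/4) = 2 D_n'(-1/2)^2 ≠ 0`. -/
def W14_stmt : Prop := ∀ (p : ℕ) [Fact p.Prime], 5 ≤ p → p % 3 = 2 →
  (derivative (red p (Sz p))).eval (-1 / 4 : ZMod p) ≠ 0

/-- ROW dk:QUA.  `Jop_Sz_dvd` and `Jop_eval` at `t`: mod `p^2`,
`8t(1+t)(1+8t+10t^2) S S' + (12t+51t^2+36t^3) S^2 ≡ 0` as `p^2 ∣ 4t+1`; with `p ∣ S` the second term
is `0` too, and `16*8t(1+t)(1+8t+10t^2) - 9 = (4t+1)(320t^3+496t^2+164t-9)`, so `9 S S' ≡ 0`. -/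
def QUA_stmt : Prop := ∀ (p : ℕ) [Fact p.Prime], 7 ≤ p → ∀ t : ℤ, (p : ℤ) ^ 2 ∣ 4 * t + 1 →
  (p : ℤ) ∣ (Sz p).eval t → ¬ (p : ℤ) ∣ (derivative (Sz p)).eval t → (p : ℤ) ^ 2 ∣ (Sz p).eval t

/-- ROW dk:P2 (hyps `WF_stmt`, `HALF_stmt`).  `x = 2` and `x = -1/4`: `λ = -1/4 = y(1+y)`, `y = -1/2`,
`n = nn p` odd for `p % 3 = 2`.  Work in `F = ZMod p`. -/
def P2_stmt : Prop := ∀ (p : ℕ) [Fact p.Prime], 5 ≤ p → p % 3 = 2 →
  aeval (2 : ZMod p) (Sz p) = 0 ∧ aeval (-1 / 4 : ZMod p) (Sz p) = 0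

/-- ROW dk:P8 (hyps `WF_stmt`, `ME_stmt`, `HALF_stmt`).  `x = 1/8`: `λ = -1/54`.  In
`F = AlgebraicClosure (ZMod p)` take `s` with `s^2 = 3`; `B/4`: `-((s-1)^2(s+2))/4 = -1/2` (as
`(4-2s)(s+2) = 2`), so `dk:ME` gives `D_n(y) = 0` for `y = -((s-1)(s+2)^2)/(2s^3)`, and
`y(1+y) = -1/54`.  Then `aeval (1/8 : F) (Sz p) = 0`, hence in `ZMod p` (injective
`algebraMap (ZMod p) F`). -/
def P8_stmt : Prop := ∀ (p : ℕ) [Fact p.Prime], 5 ≤ p → p % 3 = 2 →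
  aeval (1 / 8 : ZMod p) (Sz p) = 0

/-- ROW dk:P12 (hyps `WF_stmt`, `ME_stmt`, `PAR_stmt`).  `x = 1/2`: `λ = -1/8`.  `s^2 = 2` in
`F = AlgebraicClosure (ZMod p)`; `yb = -((s-1)^2(s+2))/4`, `ya = -((s-1)(s+2)^2)/(2s^3)`;
`(s-1)^2(s+2) = (3-2s)(s+2) = 2 - s`, `yb = -(2-s)/4`; `ya = -1 - yb`, `yb(1+yb) = -1/8`.
`s^(p-1) = 2^((p-1)/2) = (2/p)`, ME and PAR give `(2/p) (-1)^n D_n(yb) = D_n(yb)`, and
`(-1)^n = (-3/p)` (`n` even iff `p % 3 = 1`), so `(-6/p) = -1` forces `2 D_n(yb) = 0`.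
`legendreSym p (-6) = -1` with `legendreSym.at_two`/`quadratic reciprocity` for `(-3/p)`
(`(-3/p) = 1` iff `p % 3 = 1`: `ZMod.exists_sq_eq_neg_three...` or reciprocity `legendreSym.quadratic_reciprocity'`). -/
def P12_stmt : Prop := ∀ (p : ℕ) [Fact p.Prime], 5 ≤ p → legendreSym p (-6) = -1 →
  aeval (1 / 2 : ZMod p) (Sz p) = 0

/-- ROW dk:P4 (hyps `WF_stmt`, `ME_stmt`, `PAR_stmt`).  `x = -4`: `λ = 1`.  In
`F = AlgebraicClosure (ZMod p)`: `a^2 = 5`, `b^2 = -3`, `s = (a+b)/2`.  Then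
`yb := -((s-1)^2(s+2))/4 = (a-1)/2`, `ya := -((s-1)(s+2)^2)/(2s^3) = -1 - yb = -(a+1)/2`,
`yb(1+yb) = 1`.  `s^p = (a^p + b^p)/2`, `a^p = (5/p) a`, `b^p = (-3/p) b`.  If `(-15/p) = -1`, i.e.
`(5/p) = -(-3/p)`: `s^p = ±(a-b)/2` and `s^(p-1) = s^p/s = ± (a-b)/(a+b) = ±(a-b)^2/8`, while ME and PAR
give `s^(p-1) (-1)^n D_n(yb) = D_n(yb)`, and `(a-b)/(a+b) ≠ ±1`; so `D_n(yb) = 0`.
(`(p/15) = (-15/p)`; here the hypothesis is `legendreSym p (-15) = -1`.) -/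
def P4_stmt : Prop := ∀ (p : ℕ) [Fact p.Prime], 7 ≤ p → legendreSym p (-15) = -1 →
  aeval (-4 : ZMod p) (Sz p) = 0

/-- ROW dk:P16 (hyps `WF_stmt`, `ME_stmt`, and the fact `P4Y_stmt` that `D_n((a-1)/2) = 0` for both roots `a` of
`a^2 = 5`).  `x = -1/16`: `λ = -1/125`.  `s^2 = 5`, `yb = -((s-1)^2(s+2))/4 = (-s-1)/2`,
(`(6-2s)(s+2) = 2s+2`), which is a zero of `D_n` by dk:P4 (root `a = -s`); then `D_n(ya) = 0` for
`ya = -((s-1)(s+2)^2)/(2s^3)` (`s ≠ 0`), `ya(1+ya) = -1/125`. -/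
def P16_stmt : Prop := ∀ (p : ℕ) [Fact p.Prime], 7 ≤ p → legendreSym p (-15) = -1 →
  aeval (-1 / 16 : ZMod p) (Sz p) = 0

/-- the fact shared by dk:P4 and dk:P16 (proved in row dk:P4) -/
def P4Y_stmt : Prop := ∀ (p : ℕ) [Fact p.Prime] (F : Type) [Field F] [CharP F p], 7 ≤ p →
  legendreSym p (-15) = -1 → ∀ a b : F, a ^ 2 = 5 → b ^ 2 = -3 → aeval ((a - 1) / 2) (Dz (nn p)) = 0

/-- ROW dk:TR1 (integer approximation). -/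
def TR1_stmt : Prop := ∀ (p : ℕ) [Fact p.Prime] (x : ℚ), ¬ p ∣ x.den →
  ∃ t : ℤ, (p : ℤ) ^ 2 ∣ t * x.den - x.num

/-- ROW dk:TR2 (transfer).  `f(X) - f(t) = (X - t) g(X)` with `g ∈ ℤ[X]`; `x - t = p^2 u` with
`p ∤ u.den`, and the `r : ℚ` with `p ∤ r.den` are closed under `+`, `*` (`Rat.add_den_dvd`,
`Rat.mul_den_dvd`), so `g(x)` is `p`-integral by induction on polynomials. -/
def TR2_stmt : Prop := ∀ (p : ℕ) [Fact p.Prime] (f : ℤ[X]) (x : ℚ) (t : ℤ), ¬ p ∣ x.den →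
  (p : ℤ) ^ 2 ∣ t * x.den - x.num → (p : ℤ) ^ 2 ∣ f.eval t →
    ∃ r : ℚ, ¬ p ∣ r.den ∧ aeval x f = (p : ℚ) ^ 2 * r

/-- ROW dk:P5 (`p = 5`, by computation).  Each value is an explicit rational: compute
`∑_{k<5} (-1)^k D_k(x)^3` with `norm_num [Finset.sum_range_succ, Nat.choose]` or `decide`-type
evaluation, then exhibit `r`. -/
def P5_stmt : Prop := ∀ x ∈ ({2, -1 / 4, 1 / 8} : Set ℚ),
  ∃ r : ℚ, ¬ 5 ∣ r.den ∧ aeval x (Sz 5) = (5 : ℚ) ^ 2 * r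

end Pool.Agent.helper60.DK
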