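import Pool.Agent.helper60.DK.Tele

/-!
# The sum `S_N = ∑_{k<N} (-1)^k D_k^3`
-/

namespace Pool.Agent.helper60.DK

open Polynomial Finset

theorem Lop_cube {R : Type*} [CommRing R] (u : R[X]) :
    Lop (u ^ 3) = 4 * X ^ 2 * (1 + X) ^ 2 * (1 + 4 * X)
          * (6 * (derivative u) ^ 3 + 18 * u * derivative u * derivative (derivative u)
              + 3 * u ^ 2 * derivative (derivative (derivative u)))
        + (12 * X * (1 + X) ^ 2 * (1 + 4 * X) + 36 * X ^ 2 * (1 + X) * (1 + 2 * X))
          * (6 * u * (derivative u) ^ 2 + 3 * u ^ 2 * derivative (derivative u))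
        + (4 + 84 * X + 267 * X ^ 2 + 196 * X ^ 3) * (3 * u ^ 2 * derivative u)
        + (6 + 51 * X + 54 * X ^ 2) * u ^ 3 := by
  have c2 : (C (2 : R) : R[X]) = 2 := map_ofNat C 2
  have c3 : (C (3 : R) : R[X]) = 3 := map_ofNat C 3
  have d1 : derivative (u ^ 3) = 3 * u ^ 2 * derivative u := by
    rw [derivative_pow]; simp [c3]
  have d2 : derivative (derivative (u ^ 3))
      = 6 * u * (derivative u) ^ 2 + 3 * u ^ 2 * derivative (derivative u) := by
    rw [d1, derivative_mul, derivative_mul, derivative_pow]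
    simp [c2]
    ring
  have d3 : derivative (derivative (derivative (u ^ 3)))
      = 6 * (derivative u) ^ 3 + 18 * u * derivative u * derivative (derivative u)
              + 3 * u ^ 2 * derivative (derivative (derivative u)) := by
    rw [d2, derivative_add, derivative_mul, derivative_mul, derivative_mul, derivative_mul,
      derivative_pow, derivative_pow]
    simp [c2]
    ring
  unfold Lop
  rw [d3, d2, d1]

/-- derivative of the second order equation -/
theorem ode_three (n : ℕ) :
    X * (1 + X) * derivative (derivative (derivative (Dz n)))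
      = (n : ℤ[X]) * ((n : ℤ[X]) + 1) * derivative (Dz n) - 2 * derivative (Dz n)
        - 2 * (1 + 2 * X) * derivative (derivative (Dz n)) := by
  have h := congrArg derivative (ode_two n)
  have hc : derivative ((n : ℤ[X]) * ((n : ℤ[X]) + 1)) = 0 := by
    simp [derivative_mul]
  rw [derivative_mul (f := (n : ℤ[X]) * ((n : ℤ[X]) + 1)), hc] at h
  simp only [derivative_add, derivative_mul, derivative_X, derivative_one, derivative_ofNat] at h
  linear_combination h

theorem tele_step (k : ℕ) (v : ℤ[X])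
    (hv : (k : ℤ[X]) * v
      = (k : ℤ[X]) * (1 + 2 * X) * Dz k - 2 * X * (1 + X) * derivative (Dz k)) :
    2 * (1 + X) * X * Lop (Dz k ^ 3)
      = 3 * ((k : ℤ[X]) + 1) ^ 2 * Gam X ((k : ℤ[X]) + 1) (Dz (k + 1)) (Dz k)
        + 3 * (k : ℤ[X]) ^ 2 * Gam X (k : ℤ[X]) (Dz k) v := by
  rw [Lop_cube]
  refine tele_alg X (Dz k) (derivative (Dz k)) (derivative (derivative (Dz k)))
    (derivative (derivative (derivative (Dz k)))) (k : ℤ[X]) (Dz (k + 1)) v ?_ ?_ ?_ ?_
  · linear_combination ode_two k
  · linear_combination ode_three k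
  · linear_combination -rel_two k
  · exact hv

/-- `S_N = ∑_{k<N} (-1)^k D_k^3`. -/
noncomputable def Sz (N : ℕ) : ℤ[X] := ∑ k ∈ range N, (-1) ^ k * Dz k ^ 3

theorem Sz_succ (N : ℕ) : Sz (N + 1) = Sz N + (-1) ^ N * Dz N ^ 3 := by
  unfold Sz; rw [sum_range_succ]

theorem Lop_neg_one_pow_mul {R : Type*} [CommRing R] (N : ℕ) (y : R[X]) :
    Lop ((-1) ^ N * y) = (-1) ^ N * Lop y := by
  have : ((-1 : R[X]) ^ N) = C ((-1 : R) ^ N) := by simp
  rw [this, Lop_C_mul]

theorem tele_sum (m : ℕ) :
    2 * (1 + X) * X * Lop (Sz (m + 1))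
      = (-1) ^ m * (3 * ((m : ℤ[X]) + 1) ^ 2 * Gam X ((m : ℤ[X]) + 1) (Dz (m + 1)) (Dz m)) := by
  induction m with
  | zero =>
    have h := tele_step 0 0 (by
      have : Dz 0 = 1 := by
        ext j
        rw [coeff_Dz', coeff_one]
        cases j with
        | zero => simp [dc_zero]
        | succ j => rw [dc_of_lt (Nat.succ_pos j)]; simp
      rw [this]; simp)
    rw [Sz_succ, Lop_add, Lop_neg_one_pow_mul]
    have e : Sz 0 = 0 := by simp [Sz]
    rw [e, Lop_zero]
    simp only [Nat.cast_zero] at h ⊢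
    rw [pow_zero, one_mul, one_mul, zero_add, h]
    ring
  | succ m ih =>
    have h := tele_step (m + 1) (Dz m) (by
      have := rel_one m
      push_cast
      linear_combination this)
    rw [Sz_succ, Lop_add, Lop_neg_one_pow_mul, mul_add, ih]
    have e : 2 * (1 + X) * X * ((-1) ^ (m + 1) * Lop (Dz (m + 1) ^ 3))
        = (-1) ^ (m + 1) * (2 * (1 + X) * X * Lop (Dz (m + 1) ^ 3)) := by ring
    rw [e, h]
    push_cast
    ring

end Pool.Agent.helper60.DK
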