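import Pool.Agent.helper60.DK.Rel

/-!
# The third order operator, its first integral, and the telescoping identity
-/

namespace Pool.Agent.helper60.DK

open Polynomial Finset

/-- The third order operator. -/
noncomputable def Lop {R : Type*} [CommRing R] (y : R[X]) : R[X] :=
  4 * X ^ 2 * (1 + X) ^ 2 * (1 + 4 * X) * derivative (derivative (derivative y))
    + (12 * X * (1 + X) ^ 2 * (1 + 4 * X) + 36 * X ^ 2 * (1 + X) * (1 + 2 * X))
        * derivative (derivative y)
    + (4 + 84 * X + 267 * X ^ 2 + 196 * X ^ 3) * derivative y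
    + (6 + 51 * X + 54 * X ^ 2) * y

/-- The first integral. -/
noncomputable def Jop {R : Type*} [CommRing R] (y : R[X]) : R[X] :=
  4 * X ^ 2 * (1 + X) ^ 2 * (1 + 4 * X) * (2 * y * derivative (derivative y) - (derivative y) ^ 2)
    + 8 * X * (1 + X) * (1 + 8 * X + 10 * X ^ 2) * y * derivative y
    + (12 * X + 51 * X ^ 2 + 36 * X ^ 3) * y ^ 2

theorem derivative_Jop {R : Type*} [CommRing R] (y : R[X]) :
    derivative (Jop y) = 2 * y * Lop y := by
  unfold Jop Lop
  simp only [derivative_add, derivative_mul, derivative_sub, derivative_pow, derivative_X,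
    derivative_one, derivative_ofNat]
  have c2 : (C (2 : R) : R[X]) = 2 := map_ofNat C 2
  have c3 : (C (3 : R) : R[X]) = 3 := map_ofNat C 3
  norm_num
  rw [c2, c3]
  ring

theorem Lop_add {R : Type*} [CommRing R] (y z : R[X]) : Lop (y + z) = Lop y + Lop z := by
  unfold Lop
  simp only [derivative_add]
  ring

theorem Lop_neg {R : Type*} [CommRing R] (y : R[X]) : Lop (-y) = -Lop y := by
  unfold Lop
  simp only [derivative_neg]
  ring

theorem Lop_sub {R : Type*} [CommRing R] (y z : R[X]) : Lop (y - z) = Lop y - Lop z := by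
  unfold Lop
  simp only [derivative_sub]
  ring

theorem Lop_C_mul {R : Type*} [CommRing R] (c : R) (y : R[X]) : Lop (C c * y) = C c * Lop y := by
  unfold Lop
  simp only [derivative_C_mul]
  ring

theorem Lop_zero {R : Type*} [CommRing R] : Lop (0 : R[X]) = 0 := by
  unfold Lop; simp

theorem Lop_sum {R : Type*} [CommRing R] {ι : Type*} (s : Finset ι) (f : ι → R[X]) :
    Lop (∑ i ∈ s, f i) = ∑ i ∈ s, Lop (f i) := by
  classical
  induction s using Finset.induction_on with
  | empty => simp [Lop_zero]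
  | insert a s ha ih => rw [sum_insert ha, sum_insert ha, Lop_add, ih]

theorem map_Lop {R S : Type*} [CommRing R] [CommRing S] (f : R →+* S) (y : R[X]) :
    (Lop y).map f = Lop (y.map f) := by
  unfold Lop
  simp only [Polynomial.map_add, Polynomial.map_mul, Polynomial.map_pow, Polynomial.map_X,
    Polynomial.map_one, Polynomial.map_ofNat, derivative_map]

theorem map_Jop {R S : Type*} [CommRing R] [CommRing S] (f : R →+* S) (y : R[X]) :
    (Jop y).map f = Jop (y.map f) := by
  unfold Jop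
  simp only [Polynomial.map_add, Polynomial.map_sub, Polynomial.map_mul, Polynomial.map_pow,
    Polynomial.map_X, Polynomial.map_one, Polynomial.map_ofNat, derivative_map]

/-- The boundary form. -/
def Gam {R : Type*} [CommRing R] (x k u v : R) : R :=
  x * (2 - x) * u * v * (u + v)
    + k * (u - v) * ((1 + 4 * x) * (u ^ 2 + v ^ 2) + (-2 + 6 * x + 2 * x ^ 2) * u * v)

theorem tele_alg {R : Type*} [CommRing R] (x u w w1 w2 m U v : R)
    (h1 : x * (1 + x) * w1 = m * (m + 1) * u - (1 + 2 * x) * w)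
    (h2 : x * (1 + x) * w2 = m * (m + 1) * w - 2 * w - 2 * (1 + 2 * x) * w1)
    (hU : (m + 1) * U = 2 * x * (1 + x) * w + (m + 1) * (1 + 2 * x) * u)
    (hv : m * v = m * (1 + 2 * x) * u - 2 * x * (1 + x) * w) :
    2 * (1 + x) * x * (4 * x ^ 2 * (1 + x) ^ 2 * (1 + 4 * x)
          * (6 * w ^ 3 + 18 * u * w * w1 + 3 * u ^ 2 * w2)
        + (12 * x * (1 + x) ^ 2 * (1 + 4 * x) + 36 * x ^ 2 * (1 + x) * (1 + 2 * x))
          * (6 * u * w ^ 2 + 3 * u ^ 2 * w1)
        + (4 + 84 * x + 267 * x ^ 2 + 196 * x ^ 3) * (3 * u ^ 2 * w)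
        + (6 + 51 * x + 54 * x ^ 2) * u ^ 3)
      = 3 * (m + 1) ^ 2 * Gam x (m + 1) U u + 3 * m ^ 2 * Gam x m u v := by
  have e1 : (m + 1) ^ 2 * Gam x (m + 1) U u
      = x * (2 - x) * ((m + 1) * U) * u * (((m + 1) * U) + (m + 1) * u)
        + (((m + 1) * U) - (m + 1) * u) * ((1 + 4 * x) * (((m + 1) * U) ^ 2 + (m + 1) ^ 2 * u ^ 2)
          + (-2 + 6 * x + 2 * x ^ 2) * (m + 1) * ((m + 1) * U) * u) := by
    unfold Gam; ring
  have e2 : m ^ 2 * Gam x m u v
      = x * (2 - x) * u * (m * v) * (m * u + m * v)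
        + (m * u - m * v) * ((1 + 4 * x) * (m ^ 2 * u ^ 2 + (m * v) ^ 2)
          + (-2 + 6 * x + 2 * x ^ 2) * m * u * (m * v)) := by
    unfold Gam; ring
  rw [mul_assoc 3 ((m + 1) ^ 2), mul_assoc 3 (m ^ 2), e1, e2, hU, hv]
  linear_combination (24 * (x * (1 + x)) ^ 2 * (1 + 4 * x) * u ^ 2) * h2
    + (144 * (x * (1 + x)) ^ 2 * (1 + 4 * x) * u * w
        - 48 * (x * (1 + x)) * (1 + 4 * x) * (1 + 2 * x) * u ^ 2
        + 6 * (x * (1 + x)) * (12 * (1 + x) * (1 + 4 * x) + 36 * x * (1 + 2 * x)) * u ^ 2) * h1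

end Pool.Agent.helper60.DK
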