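import Pool.Agent.helper60.DK.Wpol

/-!
# Definition of `W`, `Lop W = 0`, and the primitive `Z`
-/

namespace Pool.Agent.helper60.DK

open Polynomial Finset

/-- `C(n,k) C(n+k,k) C(2k,k)` -/
def cc (n k : ℕ) : ℤ := dc n k * (k.centralBinom : ℤ)

theorem cc_succ (n k : ℕ) :
    cc n (k + 1) * ((k : ℤ) + 1) ^ 3
      = cc n k * (2 * (2 * (k : ℤ) + 1)) * (((n : ℤ) + k + 1) * ((n : ℤ) - k)) := by
  unfold cc
  have h1 := dc_succ n k
  have h2 : ((k : ℤ) + 1) * ((k + 1).centralBinom : ℤ)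
      = 2 * (2 * (k : ℤ) + 1) * (k.centralBinom : ℤ) := by
    exact_mod_cast Nat.succ_mul_centralBinom_succ k
  calc dc n (k + 1) * ((k + 1).centralBinom : ℤ) * ((k : ℤ) + 1) ^ 3
      = (dc n (k + 1) * ((k : ℤ) + 1) ^ 2) * (((k : ℤ) + 1) * ((k + 1).centralBinom : ℤ)) := by ring
    _ = _ := by rw [h1, h2]; ring

theorem cc_zero (n : ℕ) : cc n 0 = 1 := by simp [cc, dc_zero]

theorem cc_of_lt {n k : ℕ} (h : n < k) : cc n k = 0 := by simp [cc, dc_of_lt h]

section
variable (p : ℕ)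

/-- the half `(p-1)/2` -/
def hh : ℕ := (p - 1) / 2

/-- the third `⌊p/3⌋` -/
def nn : ℕ := p / 3

/-- coefficient of `W` -/
noncomputable def bb [Fact p.Prime] (k : ℕ) : ZMod p := ((cc (nn p) k : ℤ) : ZMod p) * (-27 / 16) ^ k

/-- basic term -/
noncomputable def ff (k : ℕ) : (ZMod p)[X] := X ^ (2 * k) * (1 + X) ^ (3 * (hh p - k))

/-- `ν_k = k + 1/2` -/
def nu (k : ℕ) : ZMod p := (k : ZMod p) - (hh p : ZMod p)

/-- The polynomial `W`. -/
noncomputable def Wp [Fact p.Prime] : (ZMod p)[X] :=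
  ∑ k ∈ range (nn p + 1), C (bb p k) * ff p k

end

section
variable {p : ℕ} [hp : Fact p.Prime]

theorem p_odd (h5 : 5 ≤ p) : p % 2 = 1 := by
  rcases hp.out.eq_two_or_odd with h | h
  · omega
  · exact h

theorem two_hh (h5 : 5 ≤ p) : 2 * hh p + 1 = p := by
  have := p_odd (p := p) h5
  unfold hh; omega

theorem p_mod_three (h5 : 5 ≤ p) : p % 3 = 1 ∨ p % 3 = 2 := by
  have : p % 3 ≠ 0 := by
    intro h
    have h3 : 3 ∣ p := Nat.dvd_of_mod_eq_zero h
    have := (Nat.prime_dvd_prime_iff_eq Nat.prime_three hp.out).mp h3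
    omega
  omega

theorem two_ne (h5 : 5 ≤ p) : (2 : ZMod p) ≠ 0 := by
  intro h
  have : ((2 : ℕ) : ZMod p) = 0 := by exact_mod_cast h
  rw [ZMod.natCast_eq_zero_iff] at this
  have := Nat.le_of_dvd (by norm_num) this
  omega

theorem three_ne (h5 : 5 ≤ p) : (3 : ZMod p) ≠ 0 := by
  intro h
  have : ((3 : ℕ) : ZMod p) = 0 := by exact_mod_cast h
  rw [ZMod.natCast_eq_zero_iff] at this
  have := Nat.le_of_dvd (by norm_num) this
  omega

theorem two_hK (h5 : 5 ≤ p) : 2 * (hh p : ZMod p) = -1 := by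
  have h := two_hh (p := p) h5
  have : ((2 * hh p + 1 : ℕ) : ZMod p) = ((p : ℕ) : ZMod p) := by rw [h]
  rw [ZMod.natCast_self] at this
  push_cast at this
  linear_combination this

theorem nine_nK (h5 : 5 ≤ p) : 9 * (nn p : ZMod p) * ((nn p : ZMod p) + 1) = -2 := by
  have key : ((p : ℕ) : ZMod p) = 0 := ZMod.natCast_self p
  rcases p_mod_three (p := p) h5 with h | h
  · have e : 3 * nn p + 1 = p := by unfold nn; omega
    have e' : ((3 * nn p + 1 : ℕ) : ZMod p) = 0 := by rw [e]; exact key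
    push_cast at e'
    linear_combination (3 * (nn p : ZMod p) + 2) * e'
  · have e : 3 * nn p + 2 = p := by unfold nn; omega
    have e' : ((3 * nn p + 2 : ℕ) : ZMod p) = 0 := by rw [e]; exact key
    push_cast at e'
    linear_combination (3 * (nn p : ZMod p) + 1) * e'

theorem two_nu (h5 : 5 ≤ p) (k : ℕ) : 2 * nu p k = 2 * (k : ZMod p) + 1 := by
  unfold nu
  linear_combination -two_hK (p := p) h5

theorem nu_cubic (h5 : 5 ≤ p) (k : ℕ) :
    108 * nu p k ^ 3 - 3 * nu p k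
      = 6 * (2 * (k : ZMod p) + 1) * (3 * (k : ZMod p) + 1) * (3 * (k : ZMod p) + 2) := by
  have h := two_nu (p := p) h5 k
  apply mul_left_cancel₀ (two_ne (p := p) h5)
  have e : 2 * (108 * nu p k ^ 3 - 3 * nu p k) = 27 * (2 * nu p k) ^ 3 - 3 * (2 * nu p k) := by ring
  rw [e, h]; ring

theorem bb_rec (h5 : 5 ≤ p) (k : ℕ) :
    2 * (2 * nu p k + 1) ^ 3 * bb p (k + 1) = (108 * nu p k ^ 3 - 3 * nu p k) * bb p k := by
  rw [nu_cubic h5, two_nu h5]
  unfold bb
  have h := congrArg (Int.cast : ℤ → ZMod p) (cc_succ (nn p) k)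
  push_cast at h
  have h9 := nine_nK (p := p) h5
  have h16 : (16 : ZMod p) ≠ 0 := by
    have : (16 : ZMod p) = 2 ^ 4 := by norm_num
    rw [this]; exact pow_ne_zero _ (two_ne h5)
  rw [pow_succ (-27 / 16 : ZMod p) k]
  have e27 : (16 : ZMod p) * (-27 / 16) = -27 := by field_simp
  set r : ZMod p := -27 / 16
  set κ : ZMod p := (k : ZMod p)
  set N : ZMod p := (nn p : ZMod p)
  set c1 : ZMod p := ((cc (nn p) (k + 1) : ℤ) : ZMod p)
  set c0 : ZMod p := ((cc (nn p) k : ℤ) : ZMod p)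
  linear_combination (16 * r * r ^ k) * h
    + (r ^ k * (c0 * (2 * (2 * κ + 1)) * ((N + κ + 1) * (N - κ)))) * e27
    - (6 * r ^ k * c0 * (2 * κ + 1)) * h9

theorem nn_lt_hh (h5 : 5 ≤ p) : nn p < hh p := by
  have := two_hh (p := p) h5
  unfold nn
  omega

theorem bb_top : bb p (nn p + 1) = 0 := by
  unfold bb
  rw [cc_of_lt (Nat.lt_succ_self _)]; simp

theorem bb_zero : bb p 0 = 1 := by
  unfold bb
  rw [cc_zero]; simp

theorem ff_succ {k : ℕ} (hk : k < hh p) : X ^ 2 * ff p k = (1 + X) ^ 3 * ff p (k + 1) := by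
  unfold ff
  have e : 3 * (hh p - k) = 3 * (hh p - (k + 1)) + 3 := by omega
  rw [e, pow_add]
  ring

theorem cast_two_k (h5 : 5 ≤ p) (k : ℕ) : (((2 * k : ℕ) : (ZMod p)[X])) = 2 * C (nu p k) - 1 := by
  have h := congrArg (C : ZMod p → (ZMod p)[X]) (two_nu (p := p) h5 k)
  simp only [C_mul, C_add, C_1, map_ofNat, map_natCast] at h
  push_cast
  linear_combination -h

theorem cast_three_hk {k : ℕ} (hk : k ≤ hh p) :
    (((3 * (hh p - k) : ℕ) : (ZMod p)[X])) = -3 * C (nu p k) := by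
  unfold nu
  push_cast [Nat.cast_sub hk]
  simp only [C_sub, map_natCast]
  ring

theorem ff_ld (h5 : 5 ≤ p) {k : ℕ} (hk : k ≤ hh p) :
    X * (1 + X) * derivative (ff p k)
      = ((2 * C (nu p k) - 1) * (1 + X) + (-3 * C (nu p k)) * X) * ff p k := by
  unfold ff
  rw [ld_eq, cast_two_k h5, cast_three_hk hk]

/-- telescoping terms -/
noncomputable def TT (k : ℕ) : (ZMod p)[X] := C (2 * (2 * nu p k - 1) ^ 3 * bb p k) * ff p k

theorem Lop_ff (h5 : 5 ≤ p) {k : ℕ} (hk : k < hh p) :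
    X * (1 + X) * Lop (C (bb p k) * ff p k)
      = (2 - X) * (1 + X) ^ 3 * (TT (p := p) k - TT (p := p) (k + 1)) := by
  rw [Lop_C_mul]
  have h1 := Lop_term (ff p k) (nu p k) (ff_ld h5 hk.le)
  have h2 := ff_succ (p := p) hk
  have h3 := congrArg (C : ZMod p → (ZMod p)[X]) (bb_rec (p := p) h5 k)
  have h4 : (2 * nu p (k + 1) - 1) = 2 * nu p k + 1 := by unfold nu; push_cast; ring
  unfold TT
  rw [h4]
  simp only [C_mul, C_add, C_sub, C_pow, C_1, map_ofNat] at h3 ⊢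
  linear_combination C (bb p k) * h1
    - (2 - X) * (108 * C (nu p k) ^ 3 - 3 * C (nu p k)) * C (bb p k) * h2
    + (2 - X) * (1 + X) ^ 3 * ff p (k + 1) * h3

theorem Lop_Wp (h5 : 5 ≤ p) : Lop (Wp p) = 0 := by
  have key : X * (1 + X) * Lop (Wp p) = 0 := by
    unfold Wp
    rw [Lop_sum, mul_sum]
    have : ∀ k ∈ range (nn p + 1), X * (1 + X) * Lop (C (bb p k) * ff p k)
        = (2 - X) * (1 + X) ^ 3 * (TT (p := p) k - TT (p := p) (k + 1)) := by
      intro k hk
      have := nn_lt_hh (p := p) h5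
      have := mem_range.mp hk
      exact Lop_ff h5 (by omega)
    rw [sum_congr rfl this, ← mul_sum, sum_range_sub']
    have t0 : TT (p := p) 0 = 0 := by
      unfold TT
      have : 2 * nu p 0 - 1 = 0 := by
        have := two_nu (p := p) h5 0
        rw [this]; simp
      rw [this]; simp
    have t1 : TT (p := p) (nn p + 1) = 0 := by
      unfold TT
      rw [bb_top]; simp
    rw [t0, t1]; simp
  have hX : (X : (ZMod p)[X]) ≠ 0 := X_ne_zero
  have hX1 : (1 + X : (ZMod p)[X]) ≠ 0 := by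
    have := X_add_C_ne_zero (1 : ZMod p)
    rwa [C_1, add_comm] at this
  exact (mul_eq_zero.mp key).resolve_left (mul_ne_zero hX hX1)

/-- the primitive -/
noncomputable def Zp (p : ℕ) [Fact p.Prime] : (ZMod p)[X] :=
  ∑ k ∈ range (nn p + 1), C (bb p k * (nu p k)⁻¹) * (X * ff p k)

theorem nu_ne (h5 : 5 ≤ p) {k : ℕ} (hk : k < hh p) : nu p k ≠ 0 := by
  intro h
  unfold nu at h
  have h' : ((k : ℕ) : ZMod p) = ((hh p : ℕ) : ZMod p) := by linear_combination h
  rw [ZMod.natCast_eq_natCast_iff'] at h'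
  have := two_hh (p := p) h5
  rw [Nat.mod_eq_of_lt (by omega), Nat.mod_eq_of_lt (by omega)] at h'
  omega

theorem derivative_Zp (h5 : 5 ≤ p) : (1 + X) * derivative (Zp p) = (2 - X) * Wp p := by
  unfold Zp Wp
  rw [derivative_sum, mul_sum, mul_sum]
  apply sum_congr rfl
  intro k hk
  have h1 := nn_lt_hh (p := p) h5
  have h2 := mem_range.mp hk
  have hk' : k < hh p := by omega
  have hν := nu_ne h5 hk'
  have hld := ff_ld h5 hk'.le
  have hc : C (bb p k * (nu p k)⁻¹) * C (nu p k) = C (bb p k) := by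
    rw [← C_mul, mul_assoc, inv_mul_cancel₀ hν, mul_one]
  rw [derivative_C_mul, derivative_mul, derivative_X]
  apply mul_left_cancel₀ (X_ne_zero (R := ZMod p))
  linear_combination C (bb p k * (nu p k)⁻¹) * X * hld + (2 - X) * X * ff p k * hc

end

end Pool.Agent.helper60.DK
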