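import Pool.Agent.helper60.DK.Sum
import Pool.Agent.helper60.DK.Loc

/-!
# The polynomial `W` and its equation modulo `p`
-/

namespace Pool.Agent.helper60.DK

open Polynomial Finset

theorem ld_eq {R : Type*} [CommRing R] (a b : ℕ) :
    X * (1 + X) * derivative (X ^ a * (1 + X) ^ b : R[X])
      = ((a : R[X]) * (1 + X) + (b : R[X]) * X) * (X ^ a * (1 + X) ^ b) := by
  have h1 := (pow_ders (0 : R) a).1
  have h2 := (pow_ders (-1 : R) b).1
  have e1 : (X - C (0 : R)) = X := by simp
  have e2 : (X - C (-1 : R)) = 1 + X := by simp [add_comm]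
  rw [e1] at h1
  rw [e2] at h2
  rw [derivative_mul]
  linear_combination (1 + X) * (1 + X) ^ b * h1 + X * X ^ a * h2

/-- From the logarithmic derivative to the third order operator. -/
theorem Lop_of_ld {R : Type*} [CommRing R] (f g : R[X]) (hg2 : derivative (derivative g) = 0)
    (h : X * (1 + X) * derivative f = g * f) :
    X * (1 + X) * Lop f
      = (4 * (1 + 4 * X) * ((X * (1 + X)) * derivative ((X * (1 + X)) * derivative g
            + (g - (1 + 2 * X)) * g) + (g - 2 * (1 + 2 * X)) * ((X * (1 + X)) * derivative g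
            + (g - (1 + 2 * X)) * g))
          + (12 * (1 + X) * (1 + 4 * X) + 36 * X * (1 + 2 * X)) * ((X * (1 + X)) * derivative g
            + (g - (1 + 2 * X)) * g)
          + (4 + 84 * X + 267 * X ^ 2 + 196 * X ^ 3) * g
          + (6 + 51 * X + 54 * X ^ 2) * (X * (1 + X))) * f := by
  have dP : derivative (X * (1 + X) : R[X]) = 1 + 2 * X := by
    simp [derivative_mul]; ring
  have h2 : (X * (1 + X)) ^ 2 * derivative (derivative f)
      = ((X * (1 + X)) * derivative g + (g - (1 + 2 * X)) * g) * f := by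
    have := congrArg derivative h
    rw [derivative_mul (f := (X * (1 + X) : R[X])), derivative_mul (f := g), dP] at this
    linear_combination (X * (1 + X)) * this + (g - (1 + 2 * X)) * h
  set g2 := (X * (1 + X)) * derivative g + (g - (1 + 2 * X)) * g with hg2def
  have h3 : (X * (1 + X)) ^ 3 * derivative (derivative (derivative f))
      = ((X * (1 + X)) * derivative g2 + (g - 2 * (1 + 2 * X)) * g2) * f := by
    have := congrArg derivative h2
    have dP2 : derivative ((X * (1 + X)) ^ 2 : R[X]) = 2 * (X * (1 + X)) * (1 + 2 * X) := by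
      have c2 : (C (2 : R) : R[X]) = 2 := map_ofNat C 2
      rw [derivative_pow, dP]; simp [c2]
    rw [derivative_mul (f := ((X * (1 + X)) ^ 2 : R[X])), derivative_mul (f := g2), dP2] at this
    linear_combination (X * (1 + X)) * this + (-2 * (1 + 2 * X)) * h2 + g2 * h
  unfold Lop
  linear_combination 4 * (1 + 4 * X) * h3
    + (12 * (1 + X) * (1 + 4 * X) + 36 * X * (1 + 2 * X)) * h2
    + (4 + 84 * X + 267 * X ^ 2 + 196 * X ^ 3) * h

/-- The key identity for one term. -/
theorem Lop_term {R : Type*} [CommRing R] (f : R[X]) (ν : R)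
    (h : X * (1 + X) * derivative f = ((2 * C ν - 1) * (1 + X) + (-3 * C ν) * X) * f) :
    X * (1 + X) * Lop f
      = (2 - X) * (2 * (2 * C ν - 1) ^ 3 * (1 + X) ^ 3 - (108 * C ν ^ 3 - 3 * C ν) * X ^ 2) * f := by
  have dg : derivative ((2 * C ν - 1) * (1 + X) + (-3 * C ν) * X : R[X])
      = (2 * C ν - 1) - 3 * C ν := by
    simp [derivative_mul]
    ring
  have ddg : derivative (derivative ((2 * C ν - 1) * (1 + X) + (-3 * C ν) * X : R[X])) = 0 := by
    rw [dg]; simp [derivative_mul]
  rw [Lop_of_ld f _ ddg h, dg]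
  have dg2 : derivative ((X * (1 + X)) * ((2 * C ν - 1) - 3 * C ν)
        + (((2 * C ν - 1) * (1 + X) + (-3 * C ν) * X) - (1 + 2 * X))
          * ((2 * C ν - 1) * (1 + X) + (-3 * C ν) * X) : R[X])
      = (1 + 2 * X) * ((2 * C ν - 1) - 3 * C ν)
        + (((2 * C ν - 1) - 3 * C ν) - 2) * ((2 * C ν - 1) * (1 + X) + (-3 * C ν) * X)
        + (((2 * C ν - 1) * (1 + X) + (-3 * C ν) * X) - (1 + 2 * X))
          * ((2 * C ν - 1) - 3 * C ν) := by
    simp [derivative_mul]
    ring
  rw [dg2]
  ring

end Pool.Agent.helper60.DK
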